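import Pool.Agent.Helper93.UX.Defs
import Pool.Agent.Helper24.UG.Win
import Pool.Agent.Helper56.UG.Cv

/-!
# UX: upper bounds for the numbers of long and short gaps (DX3)

Every ordinate `g` of a long (short) gap gives an interval of length `w sp T` of points `u ≤ g` whose window (or its
translate by `w sp T`) has a large deviation; the points are counted with the number of the zeros in `[u, u + w sp T)`,
and Hoelder's inequality (in the form `N ≤ l + N ^ (2 q) / l ^ (2 q - 1)`) with TX1 and TX2 bounds the integral.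
-/

set_option autoImplicit false
open MeasureTheory Set Filter Topology
open Pool.Agent.Helper57.Zeta Pool.Agent.Helper57.LH Pool.Agent.Helper57.ED Pool.Agent.Helper54.LG
open Pool.Agent.Helper57.PC (IsNontrivialZero mult)
open Pool.Agent.Helper93.UG (zc IsOrd sp Glong Gshort)
open Pool.Agent.Helper93.UX

namespace Pool.Agent.Helper65.UX

lemma one_le_mult3 {ρ : ℂ} (h : IsNontrivialZero ρ) : 1 ≤ mult ρ := by
  rw [mult_eq h]
  have h1 : xi ρ = 0 := isNontrivialZero_iff.1 h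
  have h2 : analyticOrderNatAt xi (ρ : ℂ) ≠ 0 := (order_pos_iff differentiable_xi xi_two_ne (ρ : ℂ)).mpr h1
  exact Nat.one_le_iff_ne_zero.mpr h2

/-- ordinates against zeros -/
lemma card_le_zc {F : Finset ℝ} {a b : ℝ} (hF : ∀ g ∈ F, IsOrd g ∧ g ∈ Ico a b) : F.card ≤ zc (Ico a b) := by
  rw [Pool.Agent.Helper56.UG.zc_eq (a := a) (b := b) Ico_subset_Icc_self]
  set Z := (Pool.Agent.Helper56.UG.fin_of (I := Ico a b) (a := a) (b := b) Ico_subset_Icc_self).toFinset with hZ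
  have h1 : F ⊆ Z.image Complex.im := by
    intro g hg
    obtain ⟨⟨ρ, h2, h3⟩, h4⟩ := hF g hg
    rw [Finset.mem_image]
    refine ⟨ρ, ?_, h3⟩
    rw [hZ, Set.Finite.mem_toFinset]
    exact ⟨h2, by rw [h3]; exact h4⟩
  calc F.card ≤ (Z.image Complex.im).card := Finset.card_le_card h1
    _ ≤ Z.card := Finset.card_image_le
    _ = ∑ ρ ∈ Z, 1 := by simp
    _ ≤ ∑ ρ ∈ Z, mult ρ := Finset.sum_le_sum fun ρ hρ => one_le_mult3 ((Set.Finite.mem_toFinset _).1 hρ).1

/-- the number of ordinates, from windows of length `w` -/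
lemma count {G A : Set ℝ} {w : ℝ} (hw : 0 ≤ w) (hG : G.Finite) (hord : ∀ g ∈ G, IsOrd g) (hA : MeasurableSet A)
    (hGA : ∀ g ∈ G, Ioc (g - w) g ⊆ A) (hi : IntegrableOn (fun u => (zc (Ico u (u + w)) : ℝ)) A) :
    (G.ncard : ℝ) * w ≤ ∫ u in A, (zc (Ico u (u + w)) : ℝ) := by
  classical
  have h1 : ∀ u : ℝ, ∑ g ∈ hG.toFinset, (Ioc (g - w) g).indicator (fun _ => (1:ℝ)) u ≤ (zc (Ico u (u + w)) : ℝ) := by
    intro u
    have h2 : ∑ g ∈ hG.toFinset, (Ioc (g - w) g).indicator (fun _ => (1:ℝ)) u =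
        ((hG.toFinset.filter fun g => u ∈ Ioc (g - w) g).card : ℝ) := by
      rw [Finset.card_filter]
      push_cast
      refine Finset.sum_congr rfl fun g _ => ?_
      by_cases h : u ∈ Ioc (g - w) g
      · rw [indicator_of_mem h, if_pos h]
      · rw [indicator_of_notMem h, if_neg h]
    rw [h2]
    have h3 : (hG.toFinset.filter fun g => u ∈ Ioc (g - w) g).card ≤ zc (Ico u (u + w)) := by
      refine card_le_zc fun g hg => ?_
      rw [Finset.mem_filter, Set.Finite.mem_toFinset] at hg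
      exact ⟨hord g hg.1, hg.2.2, by linarith [hg.2.1]⟩
    exact_mod_cast h3
  have hint : ∀ g ∈ hG.toFinset, Integrable ((Ioc (g - w) g).indicator (fun _ => (1:ℝ))) (volume.restrict A) := by
    intro g _
    refine Integrable.integrableOn ?_
    rw [integrable_indicator_iff measurableSet_Ioc]
    exact integrableOn_const (by rw [Real.volume_Ioc]; exact ENNReal.ofReal_ne_top)
  have h3 : ∫ u in A, ∑ g ∈ hG.toFinset, (Ioc (g - w) g).indicator (fun _ => (1:ℝ)) u = (G.ncard : ℝ) * w := by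
    rw [integral_finsetSum _ hint]
    have h4 : ∀ g ∈ hG.toFinset, ∫ u in A, (Ioc (g - w) g).indicator (fun _ => (1:ℝ)) u = w := by
      intro g hg
      rw [integral_indicator measurableSet_Ioc, Measure.restrict_restrict measurableSet_Ioc,
        inter_eq_left.2 (hGA g ((Set.Finite.mem_toFinset _).1 hg))]
      rw [integral_const, smul_eq_mul, mul_one, Measure.real, Measure.restrict_apply MeasurableSet.univ, univ_inter,
        Real.volume_Ioc, ENNReal.toReal_ofReal (by linarith)]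
      ring
    rw [Finset.sum_congr rfl h4, Finset.sum_const, nsmul_eq_mul, Set.ncard_eq_toFinset_card G hG]
  rw [← h3]
  exact integral_mono (integrable_finsetSum _ hint) hi (fun u => h1 u)

lemma zc_meas3 (w : ℝ) : Measurable (fun t => (zc (Ico t (t + w)) : ℝ)) := by
  have h := (Pool.Agent.Helper24.UG.zc_meas (w / 2)).comp (measurable_add_const (w / 2))
  have e : (fun t => (zc (Ico (t - w / 2) (t + w / 2)) : ℝ)) ∘ (fun t => t + w / 2) = fun t => (zc (Ico t (t + w)) : ℝ) := by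
    funext t
    simp only [Function.comp_apply]
    congr 3 <;> ring
  rw [← e]
  exact h

/-- the pointwise form of Hoelder's inequality -/
lemma young {N w l : ℝ} {q : ℕ} (hq : 1 ≤ q) (hN : 0 ≤ N) (hw : 0 ≤ w) (hl : 0 < l) :
    N ≤ l + 4 ^ q / l ^ (2 * q - 1) * (w ^ (2 * q) + |N - w| ^ (2 * q)) := by
  have h0 : 0 < l ^ (2 * q - 1) := pow_pos hl _
  have h1 : N ^ (2 * q) ≤ 4 ^ q * (w ^ (2 * q) + |N - w| ^ (2 * q)) := by
    have h2 : N ≤ w + |N - w| := by linarith [le_abs_self (N - w)]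
    have h3 : N ^ (2 * q) ≤ (w + |N - w|) ^ (2 * q) := pow_le_pow_left₀ hN h2 _
    have h4 := add_pow_le hw (abs_nonneg (N - w)) (2 * q)
    have h5 : (2:ℝ) ^ (2 * q - 1) ≤ 4 ^ q := by
      calc (2:ℝ) ^ (2 * q - 1) ≤ 2 ^ (2 * q) := pow_le_pow_right₀ (by norm_num) (by omega)
        _ = 4 ^ q := by rw [pow_mul]; norm_num
    have h6 : 0 ≤ w ^ (2 * q) + |N - w| ^ (2 * q) := by positivity
    exact h3.trans (h4.trans (mul_le_mul_of_nonneg_right h5 h6))
  rcases le_total N l with h | h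
  · have : 0 ≤ 4 ^ q / l ^ (2 * q - 1) * (w ^ (2 * q) + |N - w| ^ (2 * q)) := by positivity
    linarith
  · have h2 : N * l ^ (2 * q - 1) ≤ N ^ (2 * q) := by
      calc N * l ^ (2 * q - 1) ≤ N * N ^ (2 * q - 1) :=
            mul_le_mul_of_nonneg_left (pow_le_pow_left₀ hl.le h _) hN
        _ = N ^ (2 * q) := by
            rw [← pow_succ']
            congr 1
            omega
    have h3 : N ≤ 4 ^ q / l ^ (2 * q - 1) * (w ^ (2 * q) + |N - w| ^ (2 * q)) := by
      rw [div_mul_eq_mul_div, le_div_iff₀ h0]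
      exact h2.trans h1
    linarith

/-- the count with the measure bound `T / x ^ (2 q)` -/
lemma main3 {T w C x : ℝ} {q : ℕ} (hT : Real.exp 1 ≤ T) (hC : 0 < C) (hq : 1 ≤ q) (hw : 1 ≤ w) (hx : 0 < x)
    (hi : IntegrableOn (fun t => |(zc (Ico t (t + w * sp T)) : ℝ) - w| ^ (2 * q)) (Icc (T / 2) (3 * T)))
    (hI : ∫ t in Icc (T / 2) (3 * T), |(zc (Ico t (t + w * sp T)) : ℝ) - w| ^ (2 * q) ≤ C * Real.log (2 + w) ^ q * T)
    {G A : Set ℝ} (hG : G.Finite) (hord : ∀ g ∈ G, IsOrd g) (hA : MeasurableSet A) (hAI : A ⊆ Icc (T / 2) (3 * T))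
    (hGA : ∀ g ∈ G, Ioc (g - w * sp T) g ⊆ A) (hvol : volume A ≤ ENNReal.ofReal (T / x ^ (2 * q))) :
    (G.ncard : ℝ) ≤ (1 + 4 ^ q * (5 / 2 + 2 ^ q * C)) / x ^ (2 * q - 1) * (T * Real.log T) := by
  have hT0 : 0 < T := (Real.exp_pos 1).trans_le hT
  have hlog : 1 ≤ Real.log T := by
    rw [← Real.log_exp 1]
    exact Real.log_le_log (Real.exp_pos _) hT
  have hs : 0 < sp T := Pool.Agent.Helper56.UG.sp_pos hT
  have hw0 : 0 < w := by linarith
  obtain ⟨N, hN⟩ : ∃ N : ℝ → ℝ, N = fun u => (zc (Ico u (u + w * sp T)) : ℝ) := ⟨_, rfl⟩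
  have hN0 : ∀ u, 0 ≤ N u := fun u => by rw [hN]; exact Nat.cast_nonneg _
  have hNm : Measurable N := by rw [hN]; exact zc_meas3 _
  obtain ⟨l, hl⟩ : ∃ l : ℝ, l = w * x := ⟨_, rfl⟩
  have hl0 : 0 < l := by rw [hl]; positivity
  obtain ⟨K, hK⟩ : ∃ K : ℝ, K = 4 ^ q / l ^ (2 * q - 1) := ⟨_, rfl⟩
  have hK0 : 0 < K := by rw [hK]; positivity
  have hpt : ∀ u, N u ≤ l + K * (w ^ (2 * q) + |N u - w| ^ (2 * q)) := by
    intro u
    rw [hK]
    exact young hq (hN0 u) hw0.le hl0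
  have hi' : IntegrableOn (fun t => |N t - w| ^ (2 * q)) (Icc (T / 2) (3 * T)) := by rw [hN]; exact hi
  have hI' : ∫ t in Icc (T / 2) (3 * T), |N t - w| ^ (2 * q) ≤ C * Real.log (2 + w) ^ q * T := by rw [hN]; exact hI
  have hfin : volume (Icc (T / 2) (3 * T)) ≠ ⊤ := by rw [Real.volume_Icc]; exact ENNReal.ofReal_ne_top
  have hfinA : volume A ≠ ⊤ := ne_top_of_le_ne_top hfin (measure_mono hAI)
  have hc1 : IntegrableOn (fun _ : ℝ => w ^ (2 * q)) (Icc (T / 2) (3 * T)) := integrableOn_const hfin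
  have hc2 : IntegrableOn (fun t => K * (w ^ (2 * q) + |N t - w| ^ (2 * q))) (Icc (T / 2) (3 * T)) :=
    (hc1.add hi').const_mul K
  have hc3 : IntegrableOn (fun _ : ℝ => l) A := integrableOn_const hfinA
  have hbd : IntegrableOn (fun t => l + K * (w ^ (2 * q) + |N t - w| ^ (2 * q))) A := hc3.add (hc2.mono_set hAI)
  have hNi : IntegrableOn N A := by
    refine Integrable.mono' hbd hNm.aestronglyMeasurable (Eventually.of_forall fun u => ?_)
    rw [Real.norm_of_nonneg (hN0 u)]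
    exact hpt u
  have h1 := count (w := w * sp T) (by positivity) hG hord hA hGA (by rw [hN] at hNi; exact hNi)
  have h2 : ∫ u in A, (zc (Ico u (u + w * sp T)) : ℝ) ≤ ∫ u in A, (l + K * (w ^ (2 * q) + |N u - w| ^ (2 * q))) := by
    rw [show (fun u => (zc (Ico u (u + w * sp T)) : ℝ)) = N from hN.symm]
    exact integral_mono hNi hbd hpt
  have h3 : ∫ u in A, (l + K * (w ^ (2 * q) + |N u - w| ^ (2 * q))) =
      (∫ u in A, l) + ∫ u in A, K * (w ^ (2 * q) + |N u - w| ^ (2 * q)) :=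
    integral_add hc3 (hc2.mono_set hAI)
  have h4 : ∫ u in A, l ≤ T / x ^ (2 * q) * l := by
    rw [integral_const, smul_eq_mul]
    refine mul_le_mul_of_nonneg_right ?_ hl0.le
    rw [Measure.real, Measure.restrict_apply MeasurableSet.univ, univ_inter]
    exact ENNReal.toReal_le_of_le_ofReal (by positivity) hvol
  have h5 : ∫ u in A, K * (w ^ (2 * q) + |N u - w| ^ (2 * q)) ≤
      ∫ u in Icc (T / 2) (3 * T), K * (w ^ (2 * q) + |N u - w| ^ (2 * q)) :=
    setIntegral_mono_set hc2 (Eventually.of_forall fun u => by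
      show (0:ℝ) ≤ K * (w ^ (2 * q) + |N u - w| ^ (2 * q))
      positivity) (LE.le.eventuallyLE hAI)
  have h6 : ∫ u in Icc (T / 2) (3 * T), K * (w ^ (2 * q) + |N u - w| ^ (2 * q)) =
      K * (5 / 2 * T * w ^ (2 * q) + ∫ u in Icc (T / 2) (3 * T), |N u - w| ^ (2 * q)) := by
    rw [integral_const_mul, integral_add hc1 hi', integral_const, smul_eq_mul, Measure.real,
      Measure.restrict_apply MeasurableSet.univ, univ_inter, Real.volume_Icc, ENNReal.toReal_ofReal (by linarith)]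
    ring
  have h7 : Real.log (2 + w) ^ q ≤ 2 ^ q * w ^ (2 * q) := by
    have h8 : Real.log (2 + w) ≤ 2 * w ^ 2 := by
      have := Real.log_le_sub_one_of_pos (show (0 : ℝ) < 2 + w by linarith)
      nlinarith
    have h9 : 0 ≤ Real.log (2 + w) := Real.log_nonneg (by linarith)
    calc Real.log (2 + w) ^ q ≤ (2 * w ^ 2) ^ q := pow_le_pow_left₀ h9 h8 _
      _ = 2 ^ q * w ^ (2 * q) := by rw [mul_pow, ← pow_mul]
  have h8 : K * (5 / 2 * T * w ^ (2 * q) + ∫ u in Icc (T / 2) (3 * T), |N u - w| ^ (2 * q)) ≤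
      K * ((5 / 2 + 2 ^ q * C) * w ^ (2 * q) * T) := by
    refine mul_le_mul_of_nonneg_left ?_ hK0.le
    have h9 : C * Real.log (2 + w) ^ q * T ≤ C * (2 ^ q * w ^ (2 * q)) * T :=
      mul_le_mul_of_nonneg_right (mul_le_mul_of_nonneg_left h7 hC.le) hT0.le
    nlinarith [hI'.trans h9]
  have hxp : x ^ (2 * q) = x ^ (2 * q - 1) * x := by
    rw [← pow_succ]
    congr 1
    omega
  have hwp : w ^ (2 * q) = w ^ (2 * q - 1) * w := by
    rw [← pow_succ]
    congr 1
    omega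
  have hX0 : 0 < x ^ (2 * q - 1) := by positivity
  have hW0 : 0 < w ^ (2 * q - 1) := by positivity
  have h9 : T / x ^ (2 * q) * l = w * T / x ^ (2 * q - 1) := by
    rw [hl, hxp]
    field_simp
  have h10 : K * ((5 / 2 + 2 ^ q * C) * w ^ (2 * q) * T) = 4 ^ q * (5 / 2 + 2 ^ q * C) * (w * T / x ^ (2 * q - 1)) := by
    rw [hK, hl, hwp, mul_pow]
    field_simp
  have h11 : (G.ncard : ℝ) * (w * sp T) ≤ (1 + 4 ^ q * (5 / 2 + 2 ^ q * C)) * (w * T / x ^ (2 * q - 1)) := by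
    calc (G.ncard : ℝ) * (w * sp T) ≤ T / x ^ (2 * q) * l + K * ((5 / 2 + 2 ^ q * C) * w ^ (2 * q) * T) := by
          linarith
      _ = _ := by rw [h9, h10]; ring
  have h12 : (G.ncard : ℝ) * sp T ≤ (1 + 4 ^ q * (5 / 2 + 2 ^ q * C)) / x ^ (2 * q - 1) * T := by
    have h13 : w * ((G.ncard : ℝ) * sp T) ≤ w * ((1 + 4 ^ q * (5 / 2 + 2 ^ q * C)) / x ^ (2 * q - 1) * T) := by
      calc w * ((G.ncard : ℝ) * sp T) = (G.ncard : ℝ) * (w * sp T) := by ring
        _ ≤ _ := h11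
        _ = _ := by field_simp
    exact le_of_mul_le_mul_left h13 hw0
  have h14 : (G.ncard : ℝ) ≤ (G.ncard : ℝ) * sp T * Real.log T := by
    have h15 : sp T * Real.log T = 2 * Real.pi := by
      unfold sp
      field_simp
    rw [mul_assoc, h15]
    have := Real.pi_gt_three
    nlinarith [Nat.cast_nonneg (α := ℝ) G.ncard]
  calc (G.ncard : ℝ) ≤ (G.ncard : ℝ) * sp T * Real.log T := h14
    _ ≤ ((1 + 4 ^ q * (5 / 2 + 2 ^ q * C)) / x ^ (2 * q - 1) * T) * Real.log T :=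
        mul_le_mul_of_nonneg_right h12 (by linarith)
    _ = _ := by ring

/-- the change of the logarithm -/
lemma num3 {r V c : ℝ} (hr : 4 ≤ r) (hV0 : 0 ≤ V) (hV : V ≤ Real.log r) (hc1 : r / 2 ≤ c) (hc2 : c ≤ r + V) :
    V ^ 2 / Real.log r - 1 ≤ V ^ 2 / Real.log c := by
  have hr0 : 0 < r := by linarith
  have hL : 0 < Real.log r := Real.log_pos (by linarith)
  have hVr : V ≤ r := hV.trans (by linarith [Real.log_le_sub_one_of_pos hr0])
  have hlc : 0 < Real.log c := Real.log_pos (by linarith)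
  have h1 : Real.log c ≤ Real.log r + V / r := by
    have h2 : Real.log c ≤ Real.log (r * (1 + V / r)) := by
      refine Real.log_le_log (by linarith) (hc2.trans (le_of_eq ?_))
      field_simp
    rw [Real.log_mul hr0.ne' (by positivity)] at h2
    have h3 := Real.log_le_sub_one_of_pos (show 0 < 1 + V / r by positivity)
    linarith
  have h4 : V ^ 2 / (Real.log r + V / r) ≤ V ^ 2 / Real.log c := div_le_div_of_nonneg_left (by positivity) hlc h1
  refine le_trans ?_ h4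
  have h5 : 0 < Real.log r + V / r := by positivity
  rw [le_div_iff₀ h5, sub_mul, one_mul, mul_add, div_mul_cancel₀ _ hL.ne']
  have h6 : V ^ 2 / Real.log r * (V / r) ≤ Real.log r := by
    have h7 : V / r ≤ 1 := (div_le_one hr0).2 hVr
    have h8 : V ^ 2 / Real.log r ≤ Real.log r := by
      rw [div_le_iff₀ hL]
      nlinarith
    have h9 : 0 ≤ V ^ 2 / Real.log r := by positivity
    nlinarith
  have h10 : 0 ≤ V / r := by positivity
  linarith

lemma meas3 (a b w c V : ℝ) : MeasurableSet {t : ℝ | a ≤ t ∧ t ≤ b ∧ V ≤ |(zc (Ico t (t + w)) : ℝ) - c|} := by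
  have h1 : Measurable fun t : ℝ => |(zc (Ico t (t + w)) : ℝ) - c| := ((zc_meas3 w).sub_const c).abs
  exact (measurableSet_le measurable_const measurable_id).inter ((measurableSet_le measurable_id measurable_const).inter
    (measurableSet_le measurable_const h1))


/-- the choice of the constants -/
lemma coef3 {ε κ q : ℝ} (hε : 0 < ε) (hε1 : ε ≤ 1) (hκ : κ = ε / 40) (hq : 1 / κ ≤ q) :
    Real.pi ^ 2 / 2 - ε ≤ (1 - 1 / (2 * q)) * ((Real.pi ^ 2 / 2 - ε / 4) * (1 - κ) ^ 2) := by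
  have hpi := Real.pi_gt_three
  have hpi2 := Real.pi_lt_d2
  have hb1 : Real.pi ^ 2 / 2 ≤ 5 := by nlinarith
  have hb2 : (9:ℝ) / 2 ≤ Real.pi ^ 2 / 2 := by nlinarith
  obtain ⟨b, hb⟩ : ∃ b : ℝ, b = Real.pi ^ 2 / 2 := ⟨_, rfl⟩
  rw [← hb] at hb1 hb2 ⊢
  have hκ0 : 0 < κ := by rw [hκ]; positivity
  have hq0 : 0 < q := lt_of_lt_of_le (by positivity) hq
  have h1 : 1 / (2 * q) ≤ κ := by
    rw [div_le_iff₀ hκ0] at hq
    rw [div_le_iff₀ (by positivity)]
    nlinarith
  have h2 : 0 < (b - ε / 4) * (1 - κ) ^ 2 := by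
    have h3 : 0 < 1 - κ := by rw [hκ]; linarith
    have : 0 < b - ε / 4 := by linarith
    positivity
  have h3 : (1 - κ) * ((b - ε / 4) * (1 - κ) ^ 2) ≤ (1 - 1 / (2 * q)) * ((b - ε / 4) * (1 - κ) ^ 2) :=
    mul_le_mul_of_nonneg_right (by linarith) h2.le
  refine le_trans ?_ h3
  have h4 : 1 - 3 * κ ≤ (1 - κ) ^ 3 := by nlinarith [sq_nonneg κ]
  have h5 : (1 - 3 * κ) * (b - ε / 4) ≤ (1 - κ) ^ 3 * (b - ε / 4) := mul_le_mul_of_nonneg_right h4 (by linarith)
  have h6 : b - ε ≤ (1 - 3 * κ) * (b - ε / 4) := by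
    rw [hκ]
    nlinarith
  calc b - ε ≤ (1 - κ) ^ 3 * (b - ε / 4) := h6.trans h5
    _ = _ := by ring

/-- DX3, from TX1 and TX2 -/
theorem dx3_of (h1 : TX1) (h2 : TX2) : DX3 := by
  intro ε hε
  have hpi := Real.pi_gt_three
  have hpi2 := Real.pi_lt_d2
  have hb2 : (9:ℝ) / 2 ≤ Real.pi ^ 2 / 2 := by nlinarith
  have hb5 : Real.pi ^ 2 / 2 ≤ 5 := by nlinarith
  obtain ⟨e, he⟩ : ∃ e : ℝ, e = min ε 1 := ⟨_, rfl⟩
  have he0 : 0 < e := by rw [he]; exact lt_min hε one_pos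
  have he1 : e ≤ 1 := by rw [he]; exact min_le_right _ _
  have heε : e ≤ ε := by rw [he]; exact min_le_left _ _
  obtain ⟨κ, hκ⟩ : ∃ κ : ℝ, κ = e / 40 := ⟨_, rfl⟩
  have hκ0 : 0 < κ := by rw [hκ]; positivity
  have hκ1 : κ ≤ 1 / 40 := by rw [hκ]; linarith
  obtain ⟨q, hqκ⟩ := exists_nat_gt (1 / κ)
  have hq40 : (1:ℝ) ≤ 1 / κ := by rw [le_div_iff₀ hκ0]; linarith
  have hq1 : 1 ≤ q := by
    have : (1:ℝ) < q := lt_of_le_of_lt hq40 hqκ
    exact_mod_cast this.le
  have hqr : (1:ℝ) ≤ q := by exact_mod_cast hq1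
  have hcoef := coef3 he0 he1 hκ hqκ.le
  obtain ⟨C₁, d₁, T₁, hC₁, hd₁, H1⟩ := h1 q
  obtain ⟨C₂, η₂, d₂, c₀, T₂, hC₂, hη₂, hd₂, H2⟩ := h2 (e / 4) (by positivity)
  obtain ⟨D, hD⟩ : ∃ D : ℝ, D = 1 + 4 ^ q * (5 / 2 + 2 ^ q * C₁) := ⟨_, rfl⟩
  have hD1 : 1 ≤ D := by
    have : 0 < (4:ℝ) ^ q * (5 / 2 + 2 ^ q * C₁) := by positivity
    rw [hD]; linarith
  have hD0 : 0 < D := by linarith
  obtain ⟨η, hη⟩ : ∃ η : ℝ, η = min (η₂ / 2) (1 / 8) := ⟨_, rfl⟩
  have hη0 : 0 < η := by rw [hη]; exact lt_min (by positivity) (by norm_num)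
  have hη1 : η ≤ η₂ / 2 := by rw [hη]; exact min_le_left _ _
  have hη8 : η ≤ 1 / 8 := by rw [hη]; exact min_le_right _ _
  obtain ⟨δ, hδ⟩ : ∃ δ : ℝ, δ = min (min d₁ d₂ / 2) 1 := ⟨_, rfl⟩
  have hδ0 : 0 < δ := by rw [hδ]; exact lt_min (by positivity) one_pos
  have hδ1 : δ ≤ 1 := by rw [hδ]; exact min_le_right _ _
  have hδd : δ ≤ min d₁ d₂ / 2 := by rw [hδ]; exact min_le_left _ _
  have hδd1 : 2 * δ ≤ d₁ := by linarith [min_le_left d₁ d₂]
  have hδd2 : 2 * δ ≤ d₂ := by linarith [min_le_right d₁ d₂]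
  -- the constant
  obtain ⟨C, hC⟩ : ∃ C : ℝ, C = Real.log (D * 9 ^ q) + (5 / κ ^ 2 + 5 + C₂) := ⟨_, rfl⟩
  have hD9 : 1 ≤ D * 9 ^ q := by
    have : (1:ℝ) ≤ 9 ^ q := one_le_pow₀ (by norm_num)
    exact one_le_mul_of_one_le_of_one_le hD1 this
  have hC0 : 0 < C := by
    have : 0 ≤ Real.log (D * 9 ^ q) := Real.log_nonneg hD9
    rw [hC]; positivity
  refine ⟨max 4 ⌈2 * c₀⌉₊, C, η, δ, max (max T₁ T₂) (max 16 (Real.exp (Real.exp 1))), hC0, hη0, hδ0,
    fun T hT r hr hrL V hV0 hVη => ?_⟩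
  have hT1 : T₁ ≤ T := ((le_max_left _ _).trans (le_max_left _ _)).trans hT
  have hT2 : T₂ ≤ T := ((le_max_right _ _).trans (le_max_left _ _)).trans hT
  have hT16 : 16 ≤ T := ((le_max_left _ _).trans (le_max_right _ _)).trans hT
  have hTee : Real.exp (Real.exp 1) ≤ T := ((le_max_right _ _).trans (le_max_right _ _)).trans hT
  have hT0 : 0 < T := by linarith
  have hTe : Real.exp 1 ≤ T := by linarith [Real.exp_one_lt_d9]
  have hlT : Real.exp 1 ≤ Real.log T := by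
    rw [← Real.log_exp (Real.exp 1)]
    exact Real.log_le_log (Real.exp_pos _) hTee
  have hlT0 : 0 < Real.log T := (Real.exp_pos 1).trans_le hlT
  have hllT : 1 ≤ Real.log (Real.log T) := by
    rw [← Real.log_exp 1]
    exact Real.log_le_log (Real.exp_pos _) hlT
  have hs : 0 < sp T := Pool.Agent.Helper56.UG.sp_pos hTe
  obtain ⟨L, hL⟩ : ∃ L : ℝ, L = Real.log T / Real.log (Real.log T) := ⟨_, rfl⟩
  rw [← hL] at hrL
  have hLT : L ≤ Real.log T := by rw [hL]; exact div_le_self hlT0.le hllT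
  have hL0 : 0 < L := by rw [hL]; positivity
  have hr4 : (4:ℝ) ≤ r := by exact_mod_cast (le_max_left _ _).trans hr
  have hrc : 2 * c₀ ≤ r := (Nat.le_ceil _).trans (by exact_mod_cast (le_max_right _ _).trans hr)
  have hr0 : (0:ℝ) < r := by linarith
  have hlr : 1 ≤ Real.log r := by
    rw [← Real.log_exp 1]
    exact Real.log_le_log (Real.exp_pos _) (by linarith [Real.exp_one_lt_d9])
  have hlrr : Real.log r ≤ r := by linarith [Real.log_le_sub_one_of_pos hr0]
  have hVl : V ≤ Real.log r / 8 := by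
    have h := mul_le_mul_of_nonneg_right hη8 (show 0 ≤ Real.log r by linarith only [hlr])
    linarith only [h, hVη]
  have hVlr : V ≤ Real.log r := by linarith
  have hVr : V ≤ r / 8 := by linarith
  have hrlT : (r:ℝ) ≤ Real.log T := by
    calc (r:ℝ) ≤ δ * L := hrL
      _ ≤ 1 * L := mul_le_mul_of_nonneg_right hδ1 hL0.le
      _ ≤ _ := by linarith
  have hspT : sp T * Real.log T = 2 * Real.pi := by
    unfold sp
    field_simp
  -- windows are short
  have hwin : ∀ w : ℝ, w ≤ r → w * sp T ≤ T / 2 := by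
    intro w hw
    have : w * sp T ≤ Real.log T * sp T := mul_le_mul_of_nonneg_right (hw.trans hrlT) hs.le
    linarith only [this, hspT, hpi2, hT16]
  have hLd1 : ∀ w : ℝ, w ≤ r → w ≤ d₁ * (Real.log T / Real.log (Real.log T)) := by
    intro w hw
    rw [← hL]
    calc w ≤ δ * L := hw.trans hrL
      _ ≤ d₁ * L := mul_le_mul_of_nonneg_right (by linarith) hL0.le
  have hexpC : ∀ y : ℝ, Real.exp (C - y) = D * 9 ^ q * Real.exp (5 / κ ^ 2 + 5 + C₂ - y) := by
    intro y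
    rw [hC, add_sub_assoc, Real.exp_add, Real.exp_log (by linarith)]
  have hTl : 0 < T * Real.log T := by positivity
  -- small `V`
  have small : V < 1 / κ → ∀ G : Set ℝ, G.Finite → (∀ g ∈ G, T ≤ g ∧ g ≤ 2 * T ∧ IsOrd g) →
      (G.ncard : ℝ) ≤ Real.exp (C - (Real.pi ^ 2 / 2 - ε) * V ^ 2 / Real.log r) * (T * Real.log T) := by
    intro hV G hGf hG
    obtain ⟨hi, hI⟩ := H1 T hT1 1 le_rfl (hLd1 1 (by linarith))
    have h3 := main3 (A := Icc (T / 2) (3 * T)) (x := 1 / 3) hTe hC₁ hq1 le_rfl (by norm_num) hi hI hGf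
      (fun g hg => (hG g hg).2.2) measurableSet_Icc subset_rfl (fun g hg u hu => by
        have h4 := hwin 1 (by linarith)
        have h5 := hG g hg
        exact ⟨by linarith [hu.1], by linarith [hu.2]⟩) (by
        rw [Real.volume_Icc]
        refine ENNReal.ofReal_le_ofReal ?_
        rw [one_div, inv_pow, div_inv_eq_mul, pow_mul]
        have h6 : (9:ℝ) ≤ (3 ^ 2) ^ q := by
          calc (9:ℝ) = (3 ^ 2) ^ 1 := by norm_num
            _ ≤ (3 ^ 2) ^ q := pow_le_pow_right₀ (by norm_num) hq1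
        calc 3 * T - T / 2 ≤ T * 9 := by linarith only [hT0]
          _ ≤ T * (3 ^ 2) ^ q := mul_le_mul_of_nonneg_left h6 hT0.le)
    refine h3.trans (mul_le_mul_of_nonneg_right ?_ hTl.le)
    rw [hexpC, ← hD, one_div, inv_pow, div_inv_eq_mul]
    have h7 : (3:ℝ) ^ (2 * q - 1) ≤ 9 ^ q := by
      calc (3:ℝ) ^ (2 * q - 1) ≤ 3 ^ (2 * q) := pow_le_pow_right₀ (by norm_num) (by omega)
        _ = 9 ^ q := by rw [pow_mul]; norm_num
    have h8 : (Real.pi ^ 2 / 2 - ε) * V ^ 2 / Real.log r ≤ 5 / κ ^ 2 := by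
      have h9 : (Real.pi ^ 2 / 2 - ε) * V ^ 2 ≤ 5 * V ^ 2 := mul_le_mul_of_nonneg_right (by linarith) (sq_nonneg V)
      have h10 : V ^ 2 ≤ (1 / κ) ^ 2 := pow_le_pow_left₀ hV0 hV.le 2
      rw [div_le_iff₀ (by linarith)]
      calc (Real.pi ^ 2 / 2 - ε) * V ^ 2 ≤ 5 * (1 / κ) ^ 2 := by linarith
        _ = 5 / κ ^ 2 * 1 := by ring
        _ ≤ 5 / κ ^ 2 * Real.log r := mul_le_mul_of_nonneg_left hlr (by positivity)
    have h11 : 1 ≤ Real.exp (5 / κ ^ 2 + 5 + C₂ - (Real.pi ^ 2 / 2 - ε) * V ^ 2 / Real.log r) :=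
      Real.one_le_exp (by linarith)
    have h12 : D * 3 ^ (2 * q - 1) ≤ D * 9 ^ q := mul_le_mul_of_nonneg_left h7 hD0.le
    have h13 : 0 < D * 9 ^ q := by positivity
    exact h12.trans (le_mul_of_one_le_right h13.le h11)
  -- large `V`
  have large : 1 / κ ≤ V → ∀ (G A : Set ℝ) (c : ℝ), G.Finite → (∀ g ∈ G, IsOrd g) → (r:ℝ) / 2 ≤ c → c ≤ r + V →
      MeasurableSet A → A ⊆ Icc (T / 2) (3 * T) → (∀ g ∈ G, Ioc (g - κ * V * sp T) g ⊆ A) →
      volume A ≤ volume {t : ℝ | T / 2 ≤ t ∧ t ≤ 3 * T ∧ (1 - κ) * V ≤ |(zc (Ico t (t + c * sp T)) : ℝ) - c|} →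
      (G.ncard : ℝ) ≤ Real.exp (C - (Real.pi ^ 2 / 2 - ε) * V ^ 2 / Real.log r) * (T * Real.log T) := by
    intro hV G A c hGf hG hc1 hc2 hA hAI hGA hvol
    have hw1 : 1 ≤ κ * V := by
      rw [div_le_iff₀ hκ0] at hV
      linarith
    have hV1 : 0 < V := lt_of_lt_of_le (by positivity) hV
    have hwr : κ * V ≤ r := by
      have h := mul_le_mul_of_nonneg_right hκ1 hV0
      linarith only [h, hVr, hr0, hV0]
    obtain ⟨hi, hI⟩ := H1 T hT1 (κ * V) hw1 (hLd1 _ hwr)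
    have hcr : c ≤ 2 * r := by linarith
    have hlc1 : Real.log r / 2 ≤ Real.log c := by
      have h3 : Real.log (r / 2) ≤ Real.log c := Real.log_le_log (by positivity) hc1
      have h4 : Real.log (r / 2) = Real.log r - Real.log 2 := Real.log_div hr0.ne' (by norm_num)
      have h5 : Real.log 4 ≤ Real.log r := Real.log_le_log (by norm_num) hr4
      have h6 : Real.log 4 = 2 * Real.log 2 := by
        rw [show (4:ℝ) = 2 ^ 2 by norm_num, Real.log_pow]
        norm_num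
      linarith
    have hlc0 : 0 < Real.log c := by linarith
    have hV'0 : 0 ≤ (1 - κ) * V := mul_nonneg (by linarith) hV0
    have hV'η : (1 - κ) * V ≤ η₂ * Real.log c := by
      have h3 : (1 - κ) * V ≤ V := by
        have h := mul_nonneg hκ0.le hV0
        linarith only [h]
      have h4 : η * Real.log r ≤ η₂ / 2 * Real.log r := mul_le_mul_of_nonneg_right hη1 (by linarith)
      have h5 : η₂ * (Real.log r / 2) ≤ η₂ * Real.log c := mul_le_mul_of_nonneg_left hlc1 hη₂.le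
      linarith
    have hcd : c ≤ d₂ * (Real.log T / Real.log (Real.log T)) := by
      rw [← hL]
      calc c ≤ 2 * (δ * L) := by linarith
        _ = 2 * δ * L := by ring
        _ ≤ d₂ * L := mul_le_mul_of_nonneg_right hδd2 hL0.le
    have hms := H2 T hT2 c ((1 - κ) * V) (by linarith) hcd hV'0 hV'η
    have hnum := num3 hr4 hV0 hVlr hc1 hc2
    obtain ⟨b', hb'⟩ : ∃ b' : ℝ, b' = (Real.pi ^ 2 / 2 - e / 4) * (1 - κ) ^ 2 := ⟨_, rfl⟩
    rw [← hb'] at hcoef
    have hb'0 : 0 ≤ b' := by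
      rw [hb']
      exact mul_nonneg (by linarith) (sq_nonneg _)
    have hb'5 : b' ≤ 5 := by
      have h3 : (1 - κ) ^ 2 ≤ 1 := pow_le_one₀ (by linarith only [hκ1]) (by linarith only [hκ0])
      have h4 : 0 ≤ Real.pi ^ 2 / 2 - e / 4 := by linarith only [hb2, he1]
      rw [hb']
      have h5 := mul_le_of_le_one_right h4 h3
      linarith only [h5, hb5, he0]
    obtain ⟨F, hF⟩ : ∃ F : ℝ, F = b' * (V ^ 2 / Real.log r - 1) - C₂ := ⟨_, rfl⟩
    obtain ⟨x, hx⟩ : ∃ x : ℝ, x = Real.exp (F / (2 * q)) := ⟨_, rfl⟩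
    have hx0 : 0 < x := by rw [hx]; exact Real.exp_pos _
    have hxq : x ^ (2 * q) = Real.exp F := by
      rw [hx, ← Real.exp_nat_mul]
      congr 1
      push_cast
      field_simp
    have hxq1 : x ^ (2 * q - 1) = Real.exp ((1 - 1 / (2 * q)) * F) := by
      rw [hx, ← Real.exp_nat_mul]
      congr 1
      rw [Nat.cast_sub (by omega)]
      push_cast
      field_simp
    have h3 := main3 (x := x) hTe hC₁ hq1 hw1 hx0 hi hI hGf hG hA hAI hGA (by
      refine (hvol.trans hms).trans (ENNReal.ofReal_le_ofReal ?_)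
      have e1 : T / Real.exp F = Real.exp (-F) * T := by rw [Real.exp_neg, inv_mul_eq_div]
      rw [hxq, e1]
      refine mul_le_mul_of_nonneg_right (Real.exp_le_exp.2 ?_) hT0.le
      have h4 : (Real.pi ^ 2 / 2 - e / 4) * ((1 - κ) * V) ^ 2 / Real.log c = b' * (V ^ 2 / Real.log c) := by
        rw [hb']
        ring
      have h5 : b' * (V ^ 2 / Real.log r - 1) ≤ b' * (V ^ 2 / Real.log c) := mul_le_mul_of_nonneg_left hnum hb'0
      rw [h4, hF]
      linarith)
    refine h3.trans (mul_le_mul_of_nonneg_right ?_ hTl.le)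
    have e2 : D / Real.exp ((1 - 1 / (2 * (q:ℝ))) * F) = D * Real.exp (-((1 - 1 / (2 * (q:ℝ))) * F)) := by
      rw [Real.exp_neg]
      rfl
    rw [hexpC, ← hD, hxq1, e2, mul_assoc]
    refine mul_le_mul_of_nonneg_left ?_ hD0.le
    have h6 : (1:ℝ) ≤ 9 ^ q := one_le_pow₀ (by norm_num)
    have h7 : -((1 - 1 / (2 * (q:ℝ))) * F) ≤ 5 / κ ^ 2 + 5 + C₂ - (Real.pi ^ 2 / 2 - ε) * V ^ 2 / Real.log r := by
      have h8 : 0 ≤ V ^ 2 / Real.log r := by positivity
      have h9 : (Real.pi ^ 2 / 2 - ε) * (V ^ 2 / Real.log r) ≤ ((1 - 1 / (2 * (q:ℝ))) * b') * (V ^ 2 / Real.log r) :=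
        mul_le_mul_of_nonneg_right (by linarith) h8
      have h10 : 0 ≤ 1 / (2 * (q:ℝ)) := by positivity
      have h11 : 1 / (2 * (q:ℝ)) ≤ 1 := by
        rw [div_le_one (by positivity)]
        linarith
      have h12 : (1 - 1 / (2 * (q:ℝ))) * (b' + C₂) ≤ 5 + C₂ := by
        have h := mul_nonneg h10 (add_nonneg hb'0 hC₂.le)
        linarith only [h, hb'5]
      have h13 : 0 < 5 / κ ^ 2 := by positivity
      have h14 : -((1 - 1 / (2 * (q:ℝ))) * F) =
          (1 - 1 / (2 * (q:ℝ))) * (b' + C₂) - ((1 - 1 / (2 * (q:ℝ))) * b') * (V ^ 2 / Real.log r) := by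
        rw [hF]
        ring
      rw [h14, mul_div_assoc]
      linarith
    calc Real.exp (-((1 - 1 / (2 * (q:ℝ))) * F)) ≤
          Real.exp (5 / κ ^ 2 + 5 + C₂ - (Real.pi ^ 2 / 2 - ε) * V ^ 2 / Real.log r) := Real.exp_le_exp.2 h7
      _ = 1 * Real.exp (5 / κ ^ 2 + 5 + C₂ - (Real.pi ^ 2 / 2 - ε) * V ^ 2 / Real.log r) := by ring
      _ ≤ _ := mul_le_mul_of_nonneg_right h6 (Real.exp_pos _).le
  constructor
  · rcases lt_or_ge V (1 / κ) with hV | hV
    · exact small hV _ (Pool.Agent.Helper56.UG.Glong_finite T (r + V) r) fun g hg => ⟨hg.1, hg.2.1, hg.2.2.1⟩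
    · obtain ⟨w, hw⟩ : ∃ w : ℝ, w = κ * V := ⟨_, rfl⟩
      have hw0 : 0 ≤ w := by rw [hw]; positivity
      have hwV : w ≤ V := by
        rw [hw]
        exact mul_le_of_le_one_left hV0 (by linarith only [hκ1])
      have hwT := hwin w (by linarith)
      have hws : 0 ≤ w * sp T := by positivity
      obtain ⟨c, hc⟩ : ∃ c : ℝ, c = r + V - w := ⟨_, rfl⟩
      obtain ⟨H, hH⟩ : ∃ H : Set ℝ, H = {t : ℝ | T / 2 ≤ t ∧ t ≤ 3 * T ∧
        (1 - κ) * V ≤ |(zc (Ico t (t + c * sp T)) : ℝ) - c|} := ⟨_, rfl⟩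
      have hHm : MeasurableSet H := by rw [hH]; exact meas3 _ _ _ _ _
      refine large hV _ (Icc (T / 2) (3 * T) ∩ (fun u => u + w * sp T) ⁻¹' H) c
        (Pool.Agent.Helper56.UG.Glong_finite T (r + V) r) (fun g hg => hg.2.2.1) (by rw [hc]; linarith)
        (by rw [hc]; linarith) (measurableSet_Icc.inter ((measurable_add_const _) hHm)) inter_subset_left ?_ ?_
      · intro g hg u hu
        rw [← hw] at hu
        obtain ⟨hg1, hg2, hg3, hg4⟩ := hg
        refine ⟨⟨by linarith [hu.1], by linarith [hu.2]⟩, ?_⟩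
        rw [mem_preimage, hH]
        refine ⟨by linarith [hu.1], by linarith [hu.2], ?_⟩
        have h3 : zc (Ico (u + w * sp T) (u + w * sp T + c * sp T)) ≤ zc (Ioo g (g + (r + V) * sp T)) := by
          refine Pool.Agent.Helper56.UG.zc_mono (a := g) (b := g + (r + V) * sp T) (fun y hy => ⟨?_, ?_⟩)
            Ioo_subset_Icc_self
          · linarith [hy.1, hu.1]
          · have h4 : c * sp T = (r + V) * sp T - w * sp T := by rw [hc]; ring
            linarith [hy.2, hu.2]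
        have h5 : (zc (Ico (u + w * sp T) (u + w * sp T + c * sp T)) : ℝ) ≤ r := by
          exact_mod_cast (h3.trans hg4.le)
        rw [abs_sub_comm]
        refine le_trans ?_ (le_abs_self _)
        have h6 : (1 - κ) * V = V - w := by rw [hw]; ring
        linarith only [h5, h6, hc]
      · refine (measure_mono inter_subset_right).trans ?_
        rw [measure_preimage_add_right, hH]
  · rcases lt_or_ge V (1 / κ) with hV | hV
    · exact small hV _ (Pool.Agent.Helper56.UG.Gshort_finite T (r - V) r) fun g hg => ⟨hg.1, hg.2.1, hg.2.2.1⟩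
    · obtain ⟨w, hw⟩ : ∃ w : ℝ, w = κ * V := ⟨_, rfl⟩
      have hw0 : 0 ≤ w := by rw [hw]; positivity
      have hwV : w ≤ V := by
        rw [hw]
        exact mul_le_of_le_one_left hV0 (by linarith only [hκ1])
      have hwT := hwin w (by linarith)
      have hws : 0 ≤ w * sp T := by positivity
      obtain ⟨c, hc⟩ : ∃ c : ℝ, c = r - V + w := ⟨_, rfl⟩
      refine large hV _ {t : ℝ | T / 2 ≤ t ∧ t ≤ 3 * T ∧ (1 - κ) * V ≤ |(zc (Ico t (t + c * sp T)) : ℝ) - c|} c
        (Pool.Agent.Helper56.UG.Gshort_finite T (r - V) r) (fun g hg => hg.2.2.1) (by rw [hc]; linarith)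
        (by rw [hc]; linarith) (meas3 _ _ _ _ _) (fun u hu => ⟨hu.1, hu.2.1⟩) ?_ le_rfl
      intro g hg u hu
      rw [← hw] at hu
      obtain ⟨hg1, hg2, hg3, hg4⟩ := hg
      refine ⟨by linarith [hu.1], by linarith [hu.2], ?_⟩
      have h3 : zc (Icc g (g + (r - V) * sp T)) ≤ zc (Ico u (u + c * sp T)) := by
        refine Pool.Agent.Helper56.UG.zc_mono (a := u) (b := u + c * sp T) (fun y hy => ⟨?_, ?_⟩)
          Ico_subset_Icc_self
        · linarith [hy.1, hu.2]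
        · have h4 : c * sp T = (r - V) * sp T + w * sp T := by rw [hc]; ring
          linarith [hy.2, hu.1]
      have h5 : (r : ℝ) ≤ (zc (Ico u (u + c * sp T)) : ℝ) := by
        exact_mod_cast (hg4.le.trans h3)
      refine le_trans ?_ (le_abs_self _)
      have h6 : (1 - κ) * V = V - w := by rw [hw]; ring
      linarith only [h5, h6, hc]

end Pool.Agent.Helper65.UX
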