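import Pool.Agent.Helper65.UX.VWS
import Pool.Agent.Helper36.X.Res
import Pool.Agent.Helper36.X.Close
import Pool.Agent.Helper36.X.Mass
import Pool.Agent.Helper7.UW.Close

/-!
# UX: `eWS`, `vSS`, `vWS` without hypotheses
-/

set_option autoImplicit false
open MeasureTheory Set Filter Topology
open Pool.Agent.Helper57.Zeta Pool.Agent.Helper57.LH Pool.Agent.Helper57.ED Pool.Agent.Helper54.LG
open Pool.Agent.Helper69.UG (pt NX XX NR NM WW near far)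
open Pool.Agent.Helper69.UV (ww HH)
open Pool.Agent.Helper69.UW

namespace Pool.Agent.Helper65.UX

variable {δ : ℝ}

/-- R11: second moment of the prime sum, all kernel scales -/
theorem vSS (hδ : 0 < δ) (hδ1 : δ ≤ 1 / 32) : ∃ C c0 T0 : ℝ, 0 < C ∧ ∀ T c m v : ℝ, T0 ≤ T → Adm c0 T c m →
    |v| ≤ vv δ c m → ∀ M τ u : ℝ, m ≤ M → M ≤ 2 * c →
    ∫ t, wt δ T c m v τ t * SS (XX T M) (t + u) ^ 2 ≤ C * M * VV δ T c m v :=
  vSS_of (Pool.Agent.Helper36.X.rr_bd hδ hδ1)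

/-- R10': mean of the averaged prime sum -/
theorem eWS (hδ : 0 < δ) (hδ1 : δ ≤ 1 / 32) : ∃ c0 T0 : ℝ, ∀ T c m v : ℝ, T0 ≤ T → Adm c0 T c m → |v| ≤ vv δ c m →
    1 ≤ (v * ll c m) ^ 2 →
    ∀ τ : ℝ, (1 - 4 * δ) * (v ^ 2 * ll c m / Real.pi) * VV δ T c m v ≤ v * ∫ t, wt δ T c m v τ t * WS T c m t :=
  eWS_of hδ hδ1 (Pool.Agent.Helper36.X.rr_bd hδ hδ1) (Pool.Agent.Helper7.UW.PR_facts hδ hδ1)
    (Pool.Agent.Helper7.UW.PR_mass hδ hδ1) (Pool.Agent.Helper36.X.H7.WP_bd hδ hδ1) (Pool.Agent.Helper36.X.H60.ecos hδ hδ1)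

/-- vWS: second moment of the averaged prime sum -/
theorem vWS (hδ : 0 < δ) (hδ1 : δ ≤ 1 / 32) : ∃ C c0 T0 : ℝ, 0 < C ∧ ∀ T c m v : ℝ, T0 ≤ T → Adm c0 T c m →
    |v| ≤ vv δ c m → ∀ τ : ℝ, Integrable (fun t => wt δ T c m v τ t * WS T c m t ^ 2) ∧
    ∫ t, wt δ T c m v τ t * WS T c m t ^ 2 ≤ C * ((v * ll c m) ^ 2 + Real.log c) * VV δ T c m v :=
  vWS_of hδ hδ1 (Pool.Agent.Helper36.X.rr_bd hδ hδ1) (Pool.Agent.Helper7.UW.PR_facts hδ hδ1)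

end Pool.Agent.Helper65.UX
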