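import Mathlib

/-!
# UX: the second moment of the window prime sum, combinatorial part
-/

set_option autoImplicit false

namespace Pool.Agent.Helper65.UX

open Finset

/-- the pairs with `k n = l m` -/
lemma pair_sum {M : ℕ} {n m : ℕ} (hn : 1 ≤ n) (hm : 1 ≤ m) (f : ℕ → ℕ → ℝ) (F : ℕ → ℝ) (hF : ∀ h, 0 ≤ F h)
    (hf : ∀ h, 1 ≤ h → f (m / n.gcd m * h) (n / n.gcd m * h) ≤ F h) :
    ∑ k ∈ Icc 1 M, ∑ l ∈ Icc 1 M, (if k * n = l * m then f k l else 0) ≤ ∑ h ∈ Icc 1 M, F h := by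
  classical
  set g := n.gcd m with hg
  have hg0 : 0 < g := Nat.gcd_pos_of_pos_left _ (by omega)
  obtain ⟨n', hn'⟩ : g ∣ n := Nat.gcd_dvd_left _ _
  obtain ⟨m', hm'⟩ : g ∣ m := Nat.gcd_dvd_right _ _
  have en : n / g = n' := by rw [hn']; exact Nat.mul_div_cancel_left _ hg0
  have em : m / g = m' := by rw [hm']; exact Nat.mul_div_cancel_left _ hg0
  rw [en, em] at hf
  have hm'0 : 0 < m' := by
    rcases Nat.eq_zero_or_pos m' with h | h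
    · rw [h] at hm'; omega
    · exact h
  have hn'0 : 0 < n' := by
    rcases Nat.eq_zero_or_pos n' with h | h
    · rw [h] at hn'; omega
    · exact h
  have hcop : Nat.Coprime n' m' := by
    have h := Nat.coprime_div_gcd_div_gcd (m := n) (n := m) hg0
    rwa [← hg, en, em] at h
  set s := (Icc 1 M ×ˢ Icc 1 M).filter fun x : ℕ × ℕ => x.1 * n = x.2 * m with hs
  have h1 : ∑ k ∈ Icc 1 M, ∑ l ∈ Icc 1 M, (if k * n = l * m then f k l else 0) = ∑ x ∈ s, f x.1 x.2 := by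
    rw [hs, sum_filter, sum_product]
  rw [h1]
  have hpar : ∀ x ∈ s, ∃ h, 1 ≤ h ∧ h ≤ M ∧ x.1 = m' * h ∧ x.2 = n' * h := by
    intro x hx
    rw [hs, mem_filter, mem_product, mem_Icc, mem_Icc] at hx
    obtain ⟨⟨⟨h2, h3⟩, h4, h5⟩, h6⟩ := hx
    have h7 : x.1 * n' = x.2 * m' := by
      have : g * (x.1 * n') = g * (x.2 * m') := by
        calc g * (x.1 * n') = x.1 * (g * n') := by ring
          _ = x.1 * n := by rw [← hn']
          _ = x.2 * m := h6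
          _ = x.2 * (g * m') := by rw [← hm']
          _ = g * (x.2 * m') := by ring
      exact Nat.eq_of_mul_eq_mul_left hg0 this
    have h8 : m' ∣ x.1 := by
      have h9 : m' ∣ x.1 * n' := by rw [h7]; exact Dvd.intro_left _ rfl
      exact (hcop.symm).dvd_of_dvd_mul_right h9
    obtain ⟨h, hh⟩ := h8
    have h10 : x.2 = n' * h := by
      have : m' * x.2 = m' * (n' * h) := by
        calc m' * x.2 = x.2 * m' := by ring
          _ = x.1 * n' := h7.symm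
          _ = m' * h * n' := by rw [hh]
          _ = m' * (n' * h) := by ring
      exact Nat.eq_of_mul_eq_mul_left hm'0 this
    refine ⟨h, ?_, ?_, hh, h10⟩
    · rcases Nat.eq_zero_or_pos h with h11 | h11
      · rw [h11] at hh; omega
      · exact h11
    · calc h ≤ m' * h := Nat.le_mul_of_pos_left _ hm'0
        _ = x.1 := hh.symm
        _ ≤ M := h3
  calc ∑ x ∈ s, f x.1 x.2 ≤ ∑ x ∈ s, F (x.1 / m') := by
        refine sum_le_sum fun x hx => ?_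
        obtain ⟨h, h2, -, h3, h4⟩ := hpar x hx
        rw [h3, h4, Nat.mul_div_cancel_left _ hm'0]
        exact hf h h2
    _ = ∑ h ∈ s.image (fun x => x.1 / m'), F h := by
        rw [sum_image]
        intro x hx y hy hxy
        obtain ⟨h, -, -, h3, h4⟩ := hpar x hx
        obtain ⟨h', -, -, h3', h4'⟩ := hpar y hy
        simp only [h3, h3', Nat.mul_div_cancel_left _ hm'0] at hxy
        ext
        · rw [h3, h3', hxy]
        · rw [h4, h4', hxy]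
    _ ≤ ∑ h ∈ Icc 1 M, F h := by
        refine sum_le_sum_of_subset_of_nonneg ?_ fun h _ _ => hF h
        intro h hh
        rw [mem_image] at hh
        obtain ⟨x, hx, rfl⟩ := hh
        obtain ⟨h, h2, h2', h3, -⟩ := hpar x hx
        rw [h3, Nat.mul_div_cancel_left _ hm'0, mem_Icc]
        exact ⟨h2, h2'⟩

/-- the weight of a pair of prime powers -/
noncomputable def Bw (ρ : ℕ → ℝ) (n m : ℕ) : ℝ := (ρ (m / n.gcd m) / √((m / n.gcd m : ℕ) : ℝ)) * (ρ (n / n.gcd m) / √((n / n.gcd m : ℕ) : ℝ))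

lemma S_bound {M : ℕ} (r ρ : ℕ → ℝ) (hρ : ∀ q, 0 ≤ ρ q) (hmul : ∀ q h : ℕ, (q = 1 ∨ IsPrimePow q) → 1 ≤ h → |r (q * h)| ≤ ρ q * |r h|)
    {n m : ℕ} (hn : IsPrimePow n) (hm : IsPrimePow m) :
    ∑ k ∈ Icc 1 M, ∑ l ∈ Icc 1 M, (if k * n = l * m then (|r k| / √k) * (|r l| / √l) else 0) ≤
      Bw ρ n m * ∑ h ∈ Icc 1 M, r h ^ 2 / h := by
  have hn1 : 1 ≤ n := hn.one_lt.le
  have hm1 : 1 ≤ m := hm.one_lt.le
  have hg0 : 0 < n.gcd m := Nat.gcd_pos_of_pos_left _ (by omega)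
  have hq : ∀ {a b : ℕ}, IsPrimePow a → 0 < a.gcd b → (a / a.gcd b = 1 ∨ IsPrimePow (a / a.gcd b)) := by
    intro a b ha hg
    by_cases h : a / a.gcd b = 1
    · exact Or.inl h
    · refine Or.inr (ha.dvd (Nat.div_dvd_of_dvd (Nat.gcd_dvd_left _ _)) h)
  have h1 := hq hn hg0
  have h2 : (m / n.gcd m = 1 ∨ IsPrimePow (m / n.gcd m)) := by
    rw [Nat.gcd_comm]
    exact hq hm (by rwa [Nat.gcd_comm])
  rw [Finset.mul_sum]
  refine pair_sum hn1 hm1 (fun k l => (|r k| / √k) * (|r l| / √l)) (fun h => Bw ρ n m * (r h ^ 2 / h)) (fun h => ?_) (fun h hh => ?_)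
  · have : 0 ≤ Bw ρ n m := by
      unfold Bw
      have := hρ (m / n.gcd m)
      have := hρ (n / n.gcd m)
      positivity
    positivity
  · have e1 := hmul _ h h2 hh
    have e2 := hmul _ h h1 hh
    have hh0 : (0 : ℝ) < h := by exact_mod_cast hh
    set a := m / n.gcd m
    set b := n / n.gcd m
    show |r (a * h)| / √((a * h : ℕ) : ℝ) * (|r (b * h)| / √((b * h : ℕ) : ℝ)) ≤ Bw ρ n m * (r h ^ 2 / h)
    have e3 : √((a * h : ℕ) : ℝ) = √(a : ℝ) * √(h : ℝ) := by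
      push_cast
      exact Real.sqrt_mul (Nat.cast_nonneg _) _
    have e4 : √((b * h : ℕ) : ℝ) = √(b : ℝ) * √(h : ℝ) := by
      push_cast
      exact Real.sqrt_mul (Nat.cast_nonneg _) _
    rw [e3, e4]
    have hρa := hρ a
    have hρb := hρ b
    calc |r (a * h)| / (√(a : ℝ) * √(h : ℝ)) * (|r (b * h)| / (√(b : ℝ) * √(h : ℝ)))
        ≤ (ρ a * |r h|) / (√(a : ℝ) * √(h : ℝ)) * ((ρ b * |r h|) / (√(b : ℝ) * √(h : ℝ))) := by gcongr
      _ = (ρ a / √(a : ℝ)) * (ρ b / √(b : ℝ)) * (|r h| ^ 2 / (√(h : ℝ) * √(h : ℝ))) := by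
          rw [mul_comm (√(a : ℝ)), mul_comm (√(b : ℝ))]
          field_simp
      _ = Bw ρ n m * (r h ^ 2 / h) := by
          rw [Real.mul_self_sqrt hh0.le, sq_abs]
          rfl

lemma Bw_nonneg {ρ : ℕ → ℝ} (hρ : ∀ q, 0 ≤ ρ q) (n m : ℕ) : 0 ≤ Bw ρ n m := by
  unfold Bw
  have := hρ (m / n.gcd m)
  have := hρ (n / n.gcd m)
  positivity

lemma Bw_comm (ρ : ℕ → ℝ) (n m : ℕ) : Bw ρ n m = Bw ρ m n := by
  unfold Bw
  rw [Nat.gcd_comm m n, mul_comm]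

lemma Bw_le_aux {ρ : ℕ → ℝ} (h1 : ρ 1 = 1) (h2 : ∀ p j : ℕ, p.Prime → 2 ≤ j → ρ (p ^ j) = 0)
    (h3 : ∀ p : ℕ, p.Prime → ρ p ≤ √(p : ℝ)) {p a b : ℕ} (hp : p.Prime) (ha : 1 ≤ a) (hab : a < b) :
    Bw ρ (p ^ a) (p ^ b) ≤ if p ^ b = p ^ a * (p ^ a).minFac then 1 else 0 := by
  have hpa : 0 < p ^ a := Nat.pow_pos hp.pos
  have hg : (p ^ a).gcd (p ^ b) = p ^ a := Nat.gcd_eq_left (pow_dvd_pow p hab.le)
  have e1 : p ^ b / p ^ a = p ^ (b - a) := Nat.pow_div hab.le hp.pos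
  have e2 : (p ^ a).minFac = p := hp.pow_minFac (by omega)
  unfold Bw
  rw [hg, e1, Nat.div_self hpa, h1, e2]
  rcases Nat.lt_or_ge (b - a) 2 with h | h
  · have h4 : b - a = 1 := by omega
    have h5 : p ^ b = p ^ a * p := by
      rw [← pow_succ]
      congr 1
      omega
    rw [h4, pow_one, if_pos h5]
    have h6 : 0 < √(p : ℝ) := Real.sqrt_pos.2 (by exact_mod_cast hp.pos)
    have h7 : ρ p / √(p : ℝ) ≤ 1 := (div_le_one h6).2 (h3 p hp)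
    simpa using h7
  · rw [h2 p _ hp h]
    simp only [zero_div, zero_mul]
    split_ifs <;> norm_num

lemma Bw_le {ρ : ℕ → ℝ} (hρ : ∀ q, 0 ≤ ρ q) (h1 : ρ 1 = 1) (h2 : ∀ p j : ℕ, p.Prime → 2 ≤ j → ρ (p ^ j) = 0)
    (h3 : ∀ p : ℕ, p.Prime → ρ p ≤ √(p : ℝ)) {n m : ℕ} (hn : IsPrimePow n) (hm : IsPrimePow m) :
    Bw ρ n m ≤ (if n = m then 1 else 0) + (if m = n * n.minFac then 1 else 0) + (if n = m * m.minFac then 1 else 0) +
      (ρ n / √(n : ℝ)) * (ρ m / √(m : ℝ)) := by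
  obtain ⟨p, a, hp, ha, rfl⟩ := hn
  obtain ⟨q, b, hq, hb, rfl⟩ := hm
  rw [← Nat.prime_iff] at hp hq
  have hu : 0 ≤ (ρ (p ^ a) / √((p ^ a : ℕ) : ℝ)) * (ρ (q ^ b) / √((q ^ b : ℕ) : ℝ)) := by
    have := hρ (p ^ a)
    have := hρ (q ^ b)
    positivity
  have i1 : (0 : ℝ) ≤ if p ^ a = q ^ b then 1 else 0 := by split_ifs <;> norm_num
  have i2 : (0 : ℝ) ≤ if q ^ b = p ^ a * (p ^ a).minFac then 1 else 0 := by split_ifs <;> norm_num
  have i3 : (0 : ℝ) ≤ if p ^ a = q ^ b * (q ^ b).minFac then 1 else 0 := by split_ifs <;> norm_num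
  by_cases hpq : p = q
  · subst hpq
    rcases lt_trichotomy a b with h | h | h
    · have := Bw_le_aux h1 h2 h3 hp ha h
      linarith
    · subst h
      have e1 : Bw ρ (p ^ a) (p ^ a) = 1 := by
        unfold Bw
        rw [Nat.gcd_self, Nat.div_self (Nat.pow_pos hp.pos), h1]
        simp
      rw [e1, if_pos rfl]
      linarith
    · have h5 := Bw_le_aux h1 h2 h3 hp hb h
      rw [Bw_comm]
      linarith
  · have hcop : Nat.Coprime (p ^ a) (q ^ b) := Nat.coprime_pow_primes a b hp hq hpq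
    have e1 : Bw ρ (p ^ a) (q ^ b) = (ρ (p ^ a) / √((p ^ a : ℕ) : ℝ)) * (ρ (q ^ b) / √((q ^ b : ℕ) : ℝ)) := by
      unfold Bw
      rw [hcop, Nat.div_one, Nat.div_one, mul_comm]
    rw [e1]
    linarith

theorem total {N : ℕ} {G ρ : ℕ → ℝ} (hG : ∀ n, 0 ≤ G n) (hG0 : ∀ n, ¬ IsPrimePow n → G n = 0)
    (hmono : ∀ n, IsPrimePow n → G (n * n.minFac) ≤ G n) (hρ : ∀ q, 0 ≤ ρ q) (h1 : ρ 1 = 1)
    (h2 : ∀ p j : ℕ, p.Prime → 2 ≤ j → ρ (p ^ j) = 0) (h3 : ∀ p : ℕ, p.Prime → ρ p ≤ √(p : ℝ)) :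
    ∑ n ∈ Icc 1 N, ∑ m ∈ Icc 1 N, G n * G m * Bw ρ n m ≤
      3 * ∑ n ∈ Icc 1 N, G n ^ 2 + (∑ n ∈ Icc 1 N, G n * (ρ n / √(n : ℝ))) ^ 2 := by
  have hstep : ∑ n ∈ Icc 1 N, G n * G (n * n.minFac) ≤ ∑ n ∈ Icc 1 N, G n ^ 2 := by
    refine sum_le_sum fun n _ => ?_
    by_cases h : IsPrimePow n
    · rw [pow_two]
      exact mul_le_mul_of_nonneg_left (hmono n h) (hG n)
    · rw [hG0 n h]
      simp
  have key : ∀ n ∈ Icc 1 N, ∀ m ∈ Icc 1 N, G n * G m * Bw ρ n m ≤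
      (if n = m then G n * G m else 0) + (if m = n * n.minFac then G n * G m else 0) +
        (if n = m * m.minFac then G n * G m else 0) + (G n * (ρ n / √(n : ℝ))) * (G m * (ρ m / √(m : ℝ))) := by
    intro n _ m _
    by_cases hn : IsPrimePow n
    · by_cases hm : IsPrimePow m
      · have h := mul_le_mul_of_nonneg_left (Bw_le hρ h1 h2 h3 hn hm) (mul_nonneg (hG n) (hG m))
        refine h.trans (le_of_eq ?_)
        simp only [mul_add, mul_ite, mul_one, mul_zero]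
        ring
      · rw [hG0 m hm]
        simp
    · rw [hG0 n hn]
      simp
  refine (sum_le_sum fun n hn => sum_le_sum fun m hm => key n hn m hm).trans ?_
  simp only [sum_add_distrib]
  have s1 : ∑ n ∈ Icc 1 N, ∑ m ∈ Icc 1 N, (if n = m then G n * G m else 0) = ∑ n ∈ Icc 1 N, G n ^ 2 := by
    refine sum_congr rfl fun n hn => ?_
    rw [sum_ite_eq, if_pos hn, pow_two]
  have s2 : ∑ n ∈ Icc 1 N, ∑ m ∈ Icc 1 N, (if m = n * n.minFac then G n * G m else 0) ≤ ∑ n ∈ Icc 1 N, G n ^ 2 := by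
    refine le_trans (sum_le_sum fun n hn => ?_) hstep
    rw [sum_ite_eq']
    split_ifs
    · exact le_rfl
    · exact mul_nonneg (hG _) (hG _)
  have s3 : ∑ n ∈ Icc 1 N, ∑ m ∈ Icc 1 N, (if n = m * m.minFac then G n * G m else 0) ≤ ∑ n ∈ Icc 1 N, G n ^ 2 := by
    rw [sum_comm]
    refine le_trans (sum_le_sum fun m hm => ?_) hstep
    rw [sum_ite_eq']
    split_ifs
    · rw [mul_comm]
    · exact mul_nonneg (hG _) (hG _)
  have s4 : ∑ n ∈ Icc 1 N, ∑ m ∈ Icc 1 N, (G n * (ρ n / √(n : ℝ))) * (G m * (ρ m / √(m : ℝ))) =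
      (∑ n ∈ Icc 1 N, G n * (ρ n / √(n : ℝ))) ^ 2 := by
    rw [pow_two, sum_mul_sum]
  rw [s1, s4]
  linarith

/-- the diagonal of the mean value -/
theorem diagW {M N : ℕ} {r G ρ : ℕ → ℝ} (hG : ∀ n, 0 ≤ G n) (hG0 : ∀ n, ¬ IsPrimePow n → G n = 0)
    (hmono : ∀ n, IsPrimePow n → G (n * n.minFac) ≤ G n) (hρ : ∀ q, 0 ≤ ρ q) (h1 : ρ 1 = 1)
    (h2 : ∀ p j : ℕ, p.Prime → 2 ≤ j → ρ (p ^ j) = 0) (h3 : ∀ p : ℕ, p.Prime → ρ p ≤ √(p : ℝ))
    (hmul : ∀ q h : ℕ, (q = 1 ∨ IsPrimePow q) → 1 ≤ h → |r (q * h)| ≤ ρ q * |r h|) :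
    (∑ i ∈ Icc 1 M ×ˢ Icc 1 N, ∑ j ∈ Icc 1 M ×ˢ Icc 1 N,
      if i.1 * i.2 = j.1 * j.2 then (|r i.1| / √(i.1 : ℝ) * G i.2) * (|r j.1| / √(j.1 : ℝ) * G j.2) else 0) ≤
      (∑ h ∈ Icc 1 M, r h ^ 2 / h) * (3 * ∑ n ∈ Icc 1 N, G n ^ 2 + (∑ n ∈ Icc 1 N, G n * (ρ n / √(n : ℝ))) ^ 2) := by
  have e1 : (∑ i ∈ Icc 1 M ×ˢ Icc 1 N, ∑ j ∈ Icc 1 M ×ˢ Icc 1 N,
      if i.1 * i.2 = j.1 * j.2 then (|r i.1| / √(i.1 : ℝ) * G i.2) * (|r j.1| / √(j.1 : ℝ) * G j.2) else 0) =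
      ∑ n ∈ Icc 1 N, ∑ m ∈ Icc 1 N, G n * G m * ∑ k ∈ Icc 1 M, ∑ l ∈ Icc 1 M,
        (if k * n = l * m then (|r k| / √(k : ℝ)) * (|r l| / √(l : ℝ)) else 0) := by
    rw [sum_product_right]
    refine sum_congr rfl fun n _ => ?_
    simp only
    have : ∀ k ∈ Icc 1 M, (∑ j ∈ Icc 1 M ×ˢ Icc 1 N,
        if k * n = j.1 * j.2 then (|r k| / √(k : ℝ) * G n) * (|r j.1| / √(j.1 : ℝ) * G j.2) else 0) =
        ∑ m ∈ Icc 1 N, ∑ l ∈ Icc 1 M, (if k * n = l * m then (|r k| / √(k : ℝ) * G n) * (|r l| / √(l : ℝ) * G m) else 0) :=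
      fun k _ => sum_product_right _ _ _
    rw [sum_congr rfl this, sum_comm]
    refine sum_congr rfl fun m _ => ?_
    rw [mul_sum]
    refine sum_congr rfl fun k _ => ?_
    rw [mul_sum]
    refine sum_congr rfl fun l _ => ?_
    split_ifs
    · ring
    · simp
  rw [e1]
  have hV : 0 ≤ ∑ h ∈ Icc 1 M, r h ^ 2 / h := sum_nonneg fun h _ => by positivity
  have e2 : ∑ n ∈ Icc 1 N, ∑ m ∈ Icc 1 N, G n * G m * ∑ k ∈ Icc 1 M, ∑ l ∈ Icc 1 M,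
        (if k * n = l * m then (|r k| / √(k : ℝ)) * (|r l| / √(l : ℝ)) else 0) ≤
      ∑ n ∈ Icc 1 N, ∑ m ∈ Icc 1 N, G n * G m * (Bw ρ n m * ∑ h ∈ Icc 1 M, r h ^ 2 / h) := by
    refine sum_le_sum fun n _ => sum_le_sum fun m _ => ?_
    by_cases hn : IsPrimePow n
    · by_cases hm : IsPrimePow m
      · exact mul_le_mul_of_nonneg_left (S_bound r ρ hρ hmul hn hm) (mul_nonneg (hG n) (hG m))
      · rw [hG0 m hm]
        simp
    · rw [hG0 n hn]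
      simp
  refine e2.trans ?_
  have e3 : ∑ n ∈ Icc 1 N, ∑ m ∈ Icc 1 N, G n * G m * (Bw ρ n m * ∑ h ∈ Icc 1 M, r h ^ 2 / h) =
      (∑ h ∈ Icc 1 M, r h ^ 2 / h) * ∑ n ∈ Icc 1 N, ∑ m ∈ Icc 1 N, G n * G m * Bw ρ n m := by
    rw [mul_sum]
    refine sum_congr rfl fun n _ => ?_
    rw [mul_sum]
    refine sum_congr rfl fun m _ => ?_
    ring
  rw [e3]
  exact mul_le_mul_of_nonneg_left (total hG hG0 hmono hρ h1 h2 h3) hV

end Pool.Agent.Helper65.UX
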