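import Pool.Agent.Helper65.UX.Diag
import Pool.Agent.Helper57.M.C

/-!
# UX: the sum of the squares of the coefficients of the window prime sum
-/

set_option autoImplicit false

namespace Pool.Agent.Helper65.UX

open Finset
open ArithmeticFunction (vonMangoldt)
open Pool.Agent.Helper57.LS (CMe CMe_pos mertens)

/-- majorant of the coefficients -/
noncomputable def Gb (H : ℝ) (n : ℕ) : ℝ := vonMangoldt n / √(n : ℝ) * min H (1 / Real.log n)

lemma Gb_nonneg {H : ℝ} (hH : 0 ≤ H) (n : ℕ) : 0 ≤ Gb H n := by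
  unfold Gb
  have h1 := ArithmeticFunction.vonMangoldt_nonneg (n := n)
  have h2 : 0 ≤ Real.log n := Real.log_natCast_nonneg n
  have h3 : 0 ≤ min H (1 / Real.log n) := le_min hH (by positivity)
  positivity

lemma Gb_zero {H : ℝ} {n : ℕ} (h : ¬ IsPrimePow n) : Gb H n = 0 := by
  unfold Gb
  rw [ArithmeticFunction.vonMangoldt_eq_zero_iff.2 h]
  simp

lemma Gb_mono {H : ℝ} (hH : 0 ≤ H) {n : ℕ} (hn : IsPrimePow n) : Gb H (n * n.minFac) ≤ Gb H n := by
  obtain ⟨p, a, hp, ha, rfl⟩ := hn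
  rw [← Nat.prime_iff] at hp
  have e2 : (p ^ a).minFac = p := hp.pow_minFac (by omega)
  have hp0 : (1 : ℝ) < p := by exact_mod_cast hp.one_lt
  have hn1 : (1 : ℝ) < ((p ^ a : ℕ) : ℝ) := by
    exact_mod_cast Nat.one_lt_pow (by omega) hp.one_lt
  have hle : ((p ^ a : ℕ) : ℝ) ≤ ((p ^ a * p : ℕ) : ℝ) := by
    exact_mod_cast Nat.le_mul_of_pos_right _ hp.pos
  rw [e2]
  unfold Gb
  have eL : vonMangoldt (p ^ a * p) = vonMangoldt (p ^ a) := by
    rw [← pow_succ, ArithmeticFunction.vonMangoldt_apply_pow (by omega), ArithmeticFunction.vonMangoldt_apply_pow (by omega)]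
  rw [eL]
  have hL := ArithmeticFunction.vonMangoldt_nonneg (n := p ^ a)
  have hlog : 0 < Real.log ((p ^ a : ℕ) : ℝ) := Real.log_pos hn1
  have hlog2 : Real.log ((p ^ a : ℕ) : ℝ) ≤ Real.log ((p ^ a * p : ℕ) : ℝ) := Real.log_le_log (by linarith) hle
  have hs : 0 < √((p ^ a : ℕ) : ℝ) := Real.sqrt_pos.2 (by linarith)
  have hm0 : 0 ≤ min H (1 / Real.log ((p ^ a * p : ℕ) : ℝ)) := le_min hH (by
    have : 0 < Real.log ((p ^ a * p : ℕ) : ℝ) := lt_of_lt_of_le hlog hlog2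
    positivity)
  refine mul_le_mul ?_ (min_le_min le_rfl (one_div_le_one_div_of_le hlog hlog2)) hm0 (by positivity)
  exact div_le_div_of_nonneg_left hL hs (Real.sqrt_le_sqrt hle)

/-- the partial sums of `Λ(n)/n` -/
lemma mert_le {y : ℝ} (hy : 0 ≤ y) : ∑ n ∈ Icc 1 ⌊Real.exp y⌋₊, vonMangoldt n / n ≤ y + CMe := by
  have h := (abs_le.1 (mertens hy)).2
  have h1 : ∑ n ∈ Icc 1 ⌊Real.exp y⌋₊, vonMangoldt n / n ≤
      ∑ n ∈ range (Pool.Agent.Helper57.LH.NX y + 1), vonMangoldt n / n := by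
    refine sum_le_sum_of_subset_of_nonneg ?_ fun n _ _ => ?_
    · intro n hn
      rw [mem_Icc] at hn
      rw [mem_range]
      have : Pool.Agent.Helper57.LH.NX y = ⌊Real.exp y⌋₊ := rfl
      omega
    · have := ArithmeticFunction.vonMangoldt_nonneg (n := n)
      positivity
  linarith

lemma Gb_sq_le {H : ℝ} (_hH : 0 ≤ H) {n : ℕ} {B : ℝ} (hB : Real.log n * min H (1 / Real.log n) ^ 2 ≤ B) :
    Gb H n ^ 2 ≤ vonMangoldt n / n * B := by
  unfold Gb
  rcases Nat.eq_zero_or_pos n with h0 | h0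
  · subst h0
    simp
  have hn0 : (0 : ℝ) < n := by exact_mod_cast h0
  have h1 := ArithmeticFunction.vonMangoldt_nonneg (n := n)
  have h2 : vonMangoldt n ≤ Real.log n := ArithmeticFunction.vonMangoldt_le_log
  rw [mul_pow, div_pow, Real.sq_sqrt hn0.le]
  calc vonMangoldt n ^ 2 / n * min H (1 / Real.log n) ^ 2 =
        vonMangoldt n / n * (vonMangoldt n * min H (1 / Real.log n) ^ 2) := by ring
    _ ≤ vonMangoldt n / n * (Real.log n * min H (1 / Real.log n) ^ 2) := by gcongr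
    _ ≤ vonMangoldt n / n * B := mul_le_mul_of_nonneg_left hB (by positivity)

theorem dyad {H : ℝ} (hH : 0 < H) (hH1 : H ≤ 1) (J : ℕ) :
    ∑ n ∈ Icc 1 ⌊Real.exp (2 ^ J / H)⌋₊, Gb H n ^ 2 ≤ (2 + CMe) * (J + 1) := by
  have hC := CMe_pos
  induction J with
  | zero =>
    rw [pow_zero, Nat.cast_zero, zero_add, mul_one]
    have h1 : ∑ n ∈ Icc 1 ⌊Real.exp (1 / H)⌋₊, Gb H n ^ 2 ≤ ∑ n ∈ Icc 1 ⌊Real.exp (1 / H)⌋₊, vonMangoldt n / n * H := by
      refine sum_le_sum fun n hn => Gb_sq_le hH.le ?_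
      rw [mem_Icc] at hn
      have hn0 : (0 : ℝ) < n := by exact_mod_cast hn.1
      have h2 : Real.log n ≤ 1 / H := by
        rw [Real.log_le_iff_le_exp hn0]
        exact (Nat.le_floor_iff (Real.exp_pos _).le).1 hn.2
      have h3 : 0 ≤ Real.log n := Real.log_natCast_nonneg n
      have h4 : min H (1 / Real.log n) ≤ H := min_le_left _ _
      have h5 : 0 ≤ min H (1 / Real.log n) := le_min hH.le (by positivity)
      calc Real.log n * min H (1 / Real.log n) ^ 2 ≤ 1 / H * H ^ 2 := by gcongr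
        _ = H := by field_simp
    refine h1.trans ?_
    rw [← sum_mul]
    have h2 := mul_le_mul_of_nonneg_right (mert_le (y := 1 / H) (by positivity)) hH.le
    refine h2.trans ?_
    have h3 : (1 / H + CMe) * H = 1 + CMe * H := by field_simp
    rw [h3]
    nlinarith
  | succ J ih =>
    have hJ : (0 : ℝ) < 2 ^ J := by positivity
    have hle : ⌊Real.exp (2 ^ J / H)⌋₊ ≤ ⌊Real.exp (2 ^ (J + 1) / H)⌋₊ := by
      refine Nat.floor_le_floor (Real.exp_le_exp.2 ?_)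
      refine div_le_div_of_nonneg_right ?_ hH.le
      exact pow_le_pow_right₀ (by norm_num) (by omega)
    have hsplit : Icc 1 ⌊Real.exp (2 ^ (J + 1) / H)⌋₊ = Icc 1 ⌊Real.exp (2 ^ J / H)⌋₊ ∪ Ioc ⌊Real.exp (2 ^ J / H)⌋₊ ⌊Real.exp (2 ^ (J + 1) / H)⌋₊ := by
      ext n
      simp only [mem_union, mem_Icc, mem_Ioc]
      omega
    have hdisj : Disjoint (Icc 1 ⌊Real.exp (2 ^ J / H)⌋₊) (Ioc ⌊Real.exp (2 ^ J / H)⌋₊ ⌊Real.exp (2 ^ (J + 1) / H)⌋₊) := by
      rw [disjoint_left]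
      intro n hn hn'
      simp only [mem_Icc, mem_Ioc] at hn hn'
      omega
    rw [hsplit, sum_union hdisj]
    have h1 : ∑ n ∈ Ioc ⌊Real.exp (2 ^ J / H)⌋₊ ⌊Real.exp (2 ^ (J + 1) / H)⌋₊, Gb H n ^ 2 ≤
        ∑ n ∈ Ioc ⌊Real.exp (2 ^ J / H)⌋₊ ⌊Real.exp (2 ^ (J + 1) / H)⌋₊, vonMangoldt n / n * (H / 2 ^ J) := by
      refine sum_le_sum fun n hn => Gb_sq_le hH.le ?_
      rw [mem_Ioc] at hn
      have h2 : 2 ^ J / H < Real.log n := by
        have h3 := (Nat.floor_lt (Real.exp_pos _).le).1 hn.1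
        rwa [Real.lt_log_iff_exp_lt (lt_trans (Real.exp_pos _) h3)]
      have h3 : 0 < Real.log n := lt_trans (by positivity) h2
      have h4 : min H (1 / Real.log n) ≤ 1 / Real.log n := min_le_right _ _
      have h5 : 0 ≤ min H (1 / Real.log n) := le_min hH.le (by positivity)
      calc Real.log n * min H (1 / Real.log n) ^ 2 ≤ Real.log n * (1 / Real.log n) ^ 2 := by gcongr
        _ = 1 / Real.log n := by field_simp
        _ ≤ 1 / (2 ^ J / H) := one_div_le_one_div_of_le (by positivity) h2.le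
        _ = H / 2 ^ J := by rw [one_div_div]
    have h2 : ∑ n ∈ Ioc ⌊Real.exp (2 ^ J / H)⌋₊ ⌊Real.exp (2 ^ (J + 1) / H)⌋₊, vonMangoldt n / n * (H / 2 ^ J) ≤ 2 + CMe := by
      rw [← sum_mul]
      have h3 : ∑ n ∈ Ioc ⌊Real.exp (2 ^ J / H)⌋₊ ⌊Real.exp (2 ^ (J + 1) / H)⌋₊, vonMangoldt n / (n : ℝ) ≤
          2 ^ (J + 1) / H + CMe := by
        refine le_trans (sum_le_sum_of_subset_of_nonneg ?_ fun n _ _ => ?_) (mert_le (by positivity))
        · intro n hn
          rw [mem_Ioc] at hn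
          rw [mem_Icc]
          omega
        · have := ArithmeticFunction.vonMangoldt_nonneg (n := n)
          positivity
      refine (mul_le_mul_of_nonneg_right h3 (by positivity)).trans ?_
      have h4 : (2 ^ (J + 1) / H + CMe) * (H / 2 ^ J) = 2 + CMe * (H / 2 ^ J) := by
        rw [pow_succ]
        field_simp
      rw [h4]
      have h5 : H / 2 ^ J ≤ 1 := by
        rw [div_le_one hJ]
        exact hH1.trans (one_le_pow₀ (by norm_num))
      nlinarith
    push_cast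
    linarith

/-- `∑ Gb² ≤ C log c` -/
theorem Gb_sum {H X c : ℝ} (hH : 0 < H) (hH1 : H ≤ 1) (hc : 3 ≤ c) (hX : X * H ≤ 4 * c) :
    ∑ n ∈ Icc 1 ⌊Real.exp X⌋₊, Gb H n ^ 2 ≤ 7 * (2 + CMe) * Real.log c := by
  have hC := CMe_pos
  set J : ℕ := ⌈2 * Real.log (4 * c)⌉₊ with hJ
  have hl4 : 0 < Real.log (4 * c) := Real.log_pos (by linarith)
  have h1 : 2 * Real.log (4 * c) ≤ J := Nat.le_ceil _
  have h2 : (J : ℝ) < 2 * Real.log (4 * c) + 1 := Nat.ceil_lt_add_one (by positivity)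
  have h3 : 4 * c ≤ 2 ^ J := by
    have h4 : Real.exp (Real.log (4 * c)) ≤ Real.exp (Real.log 2 * J) := by
      apply Real.exp_le_exp.2
      have h5 := Real.log_two_gt_d9
      have h6 : Real.log 2 * (2 * Real.log (4 * c)) ≤ Real.log 2 * J := mul_le_mul_of_nonneg_left h1 (by linarith)
      nlinarith
    rw [Real.exp_log (by linarith)] at h4
    have h5 : Real.exp (Real.log 2 * J) = 2 ^ J := by
      rw [mul_comm, Real.exp_nat_mul, Real.exp_log (by norm_num)]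
    rwa [h5] at h4
  have h4 : X ≤ 2 ^ J / H := by
    rw [le_div_iff₀ hH]
    linarith
  have h5 : ∑ n ∈ Icc 1 ⌊Real.exp X⌋₊, Gb H n ^ 2 ≤ ∑ n ∈ Icc 1 ⌊Real.exp (2 ^ J / H)⌋₊, Gb H n ^ 2 := by
    refine sum_le_sum_of_subset_of_nonneg ?_ fun n _ _ => sq_nonneg _
    intro n hn
    rw [mem_Icc] at hn ⊢
    exact ⟨hn.1, hn.2.trans (Nat.floor_le_floor (Real.exp_le_exp.2 h4))⟩
  refine h5.trans ((dyad hH hH1 J).trans ?_)
  have hlc : 1 ≤ Real.log c := by
    have h6 : Real.exp 1 ≤ 3 := by linarith [Real.exp_one_lt_d9]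
    have := Real.log_le_log (Real.exp_pos 1) (h6.trans hc)
    rwa [Real.log_exp] at this
  have hl : Real.log (4 * c) = Real.log 4 + Real.log c := Real.log_mul (by norm_num) (by linarith)
  have hl4' : Real.log 4 ≤ 1.4 := by
    rw [show (4 : ℝ) = 2 ^ 2 by norm_num, Real.log_pow]
    have := Real.log_two_lt_d9
    norm_num
    linarith
  have h7 : (J : ℝ) + 1 ≤ 7 * Real.log c := by
    rw [hl] at h2
    nlinarith
  have h8 : (2 + CMe) * ((J : ℝ) + 1) ≤ (2 + CMe) * (7 * Real.log c) := mul_le_mul_of_nonneg_left h7 (by linarith)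
  linarith

end Pool.Agent.Helper65.UX
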