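import Pool.Agent.Helper65.UX.VSS
import Pool.Agent.Helper65.UW.EWS

/-!
# UX R10: the mean of the prime sum, averaged over the window, `|v| ≤ vv`

`(X/2π) ∫_{-H}^{H} cos (w log n) dw = (X/π) sin (H log n)/log n`; at a prime `p` of the resonator `H log p = π ww p`, and
`cf X p · (X/π) sin(π w)/log p · v WP(p)/√p = (2/π) (1 - log p/X)² (rp WP)/p`.
-/

set_option autoImplicit false
open MeasureTheory Set Filter Topology
open Pool.Agent.Helper57.Zeta Pool.Agent.Helper57.LH Pool.Agent.Helper57.ED Pool.Agent.Helper54.LG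
open Pool.Agent.Helper69.UG (pt XX NR NM WW)
open Pool.Agent.Helper69.UV (ww HH)
open Pool.Agent.Helper69.UW (Adm PR sw rp rr RR VV wt WP WS ll vv ll_pos vv_pos)
open Pool.Agent.Helper65.UG (cf SS_eq cf_bd)
open Pool.Agent.Helper65.UV (sH sH_abs sH_eq sin_window)

open Pool.Agent.Helper65.UW (RR_eq RR_cont RR_bdd int_wt wt_nonneg adm_facts WS_eq)

namespace Pool.Agent.Helper65.UX

/-- R3. -/
def StR3 (δ : ℝ) : Prop := ∃ c0 T0 : ℝ, ∀ T c m : ℝ, T0 ≤ T → Adm c0 T c m →
    (∀ p ∈ PR δ T c m, p.Prime ∧ Real.log T ^ 4 < p ∧ Real.log T ^ 60 < p ∧ (p : ℝ) ≤ T ^ (1 / 1000 : ℝ) ∧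
      64 * m * Real.log p ≤ δ * Real.log T ∧ 1 < ww T c p) ∧
    1 ≤ ∑ p ∈ PR δ T c m, (1 / p : ℝ) ∧ ∑ p ∈ PR δ T c m, (1 / p : ℝ) ≤ ll c m

/-- R3'. -/
def StR3' (δ : ℝ) : Prop := ∃ c0 T0 : ℝ, ∀ T c m : ℝ, T0 ≤ T → Adm c0 T c m →
    (1 / 2 - δ) * ll c m ≤ ∑ p ∈ PR δ T c m, sw T c p ^ 2 / p ∧
    ∑ p ∈ PR δ T c m, sw T c p ^ 2 / p ≤ (1 / 2 + δ) * ll c m

/-- R4. -/
def StR4 (δ : ℝ) : Prop := ∃ c0 T0 : ℝ, ∀ T c m v : ℝ, T0 ≤ T → Adm c0 T c m → |v| ≤ vv δ c m →
    ∀ p ∈ PR δ T c m,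
    (1 - δ) * rp T c v p ^ 2 * VV δ T c m v ≤ rp T c v p * WP δ T c m v p ∧
    |WP δ T c m v p| ≤ |rp T c v p| * VV δ T c m v

/-- R9. -/
def StR9 (δ : ℝ) : Prop := ∃ c0 T0 : ℝ, ∀ T c m v : ℝ, T0 ≤ T → Adm c0 T c m → |v| ≤ vv δ c m →
    ∀ τ u : ℝ, ∀ n : ℕ, IsPrimePow n → (n : ℝ) ≤ Real.exp (XX T m) →
    |(∫ t, wt δ T c m v τ t * Real.cos ((t + u) * Real.log n)) -
      (if n ∈ PR δ T c m then WP δ T c m v n / √n * Real.cos (u * Real.log n) else 0)| ≤ 1 / T

lemma num1 {δ : ℝ} (hδ : 0 < δ) (hδ1 : δ ≤ 1 / 32) :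
    1 - 7 / 2 * δ ≤ (1 - δ / 64) ^ 2 * (1 - δ) * (1 - 2 * δ) := by
  have h1 : 1 - δ / 32 ≤ (1 - δ / 64) ^ 2 := by nlinarith [sq_nonneg δ]
  have h2 : (1 - δ / 32) * (1 - δ) ≤ (1 - δ / 64) ^ 2 * (1 - δ) := mul_le_mul_of_nonneg_right h1 (by linarith)
  have h4 : (1 - δ / 32) * (1 - δ) * (1 - 2 * δ) ≤ (1 - δ / 64) ^ 2 * (1 - δ) * (1 - 2 * δ) :=
    mul_le_mul_of_nonneg_right h2 (by linarith)
  nlinarith [mul_nonneg hδ.le hδ.le, mul_nonneg (mul_nonneg hδ.le hδ.le) hδ.le]

theorem eWS_of {δ : ℝ} (hδ : 0 < δ) (hδ1 : δ ≤ 1 / 32) (hR2 : StR2 δ) (hR3 : StR3 δ) (hR3' : StR3' δ) (hR4 : StR4 δ)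
    (hR9 : StR9 δ) : ∃ c0 T0 : ℝ, ∀ T c m v : ℝ, T0 ≤ T → Adm c0 T c m → |v| ≤ vv δ c m →
    1 ≤ (v * ll c m) ^ 2 →
    ∀ τ : ℝ, (1 - 4 * δ) * (v ^ 2 * ll c m / Real.pi) * VV δ T c m v ≤ v * ∫ t, wt δ T c m v τ t * WS T c m t := by
  obtain ⟨c2, T2, hR2⟩ := hR2
  obtain ⟨c3, T3, hR3⟩ := hR3
  obtain ⟨c3', T3', hR3'⟩ := hR3'
  obtain ⟨c4, T4, hR4⟩ := hR4
  obtain ⟨c9, T9, hR9⟩ := hR9
  refine ⟨max (max (max c2 c3') c3) (max (max c4 c9) 64),
    max (max (max T2 T3') T3) (max (max T4 T9) (max (Real.exp (Real.exp 1)) ((1 / δ) ^ 4))), ?_⟩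
  intro T c m v hT hadm hv hvll τ
  simp only [max_le_iff] at hT
  obtain ⟨⟨⟨hT2, hT3'⟩, hT3⟩, ⟨hT4, hT9⟩, hTe, hTb⟩ := hT
  have hadm2 : Adm c2 T c m := hadm.mono (by simp)
  have hadm3 : Adm c3 T c m := hadm.mono (by simp)
  have hadm3' : Adm c3' T c m := hadm.mono (by simp)
  have hadm4 : Adm c4 T c m := hadm.mono (by simp)
  have hadm9 : Adm c9 T c m := hadm.mono (by simp)
  have hadm64 : Adm 64 T c m := hadm.mono (by simp)
  have hmc : m ≤ c := hadm64.m_le_c (by norm_num)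
  have hc3 : 3 ≤ c := hadm64.1
  obtain ⟨hT1, hlog1, hm64, -, hX16, hXlog, hXe, hcX⟩ := adm_facts hTe le_rfl hadm64 (le_refl m) (by linarith)
  have hT0 : 0 < T := by linarith
  have hc0 : 0 < c := by linarith
  have hm0 : 0 < m := by linarith
  have hV := (hR2 T c m v hT2 hadm2 hv 0).2
  obtain ⟨hP, -, -⟩ := hR3 T c m hT3 hadm3
  have hP1 := (hR3' T c m hT3' hadm3').1
  have h4 := hR4 T c m v hT4 hadm4 hv
  have h9 := hR9 T c m v hT9 hadm9 hv τ 0
  have hll : 0 < ll c m := ll_pos hadm64 (by norm_num)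
  have hvl : 1 ≤ |v| * ll c m := by
    have h1 : (v * ll c m) ^ 2 = (|v| * ll c m) ^ 2 := by rw [mul_pow, mul_pow, sq_abs]
    rw [h1] at hvll
    have h2 : 0 ≤ |v| * ll c m := by positivity
    nlinarith
  have hvp : 0 < |v| := by
    by_contra hcon
    have h1 : |v| = 0 := le_antisymm (not_lt.1 hcon) (abs_nonneg v)
    rw [h1] at hvl
    linarith
  have hpi := Real.pi_pos
  have hlc : 64 * c ≤ Real.log T := by
    have h1 : Real.exp 1 ≤ Real.log T := (Real.le_log_iff_exp_le hT0).2 hTe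
    have h2 : 1 ≤ Real.log (Real.log T) := (Real.le_log_iff_exp_le (by linarith)).2 h1
    have h3 := hadm64.2.2.2.2
    have h4 : c * 1 ≤ c * Real.log (Real.log T) := mul_le_mul_of_nonneg_left h2 hc0.le
    linarith
  set X := XX T m with hXdef
  set H := HH T c with hHdef
  have hX0 : 0 < X := by linarith
  have hH0 : 0 < H := by
    rw [hHdef]
    unfold HH
    positivity
  have hlogT : Real.log T = m * X := hcX.symm
  have hXH : X * H / Real.pi = c / m := by
    rw [hHdef]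
    unfold HH
    rw [hlogT]
    field_simp
  set N := ⌊Real.exp X⌋₊ with hN
  have hNle : (N : ℝ) ≤ T ^ (1 / 64 : ℝ) := (Nat.floor_le (Real.exp_pos X).le).trans hXe
  set E : ℕ → ℝ := fun n => ∫ t, wt δ T c m v τ t * Real.cos (t * Real.log n) with hE
  -- the integral
  have hint : ∫ t, wt δ T c m v τ t * WS T c m t =
      ∑ n ∈ Finset.Icc 1 N, cf X n * sH X H n * E n := by
    simp_rw [WS_eq, Finset.mul_sum]
    rw [integral_finsetSum]
    · refine Finset.sum_congr rfl fun n _ => ?_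
      rw [hE, ← integral_const_mul]
      congr 1
      ext t
      ring
    · intro n _
      have h := int_wt (δ := δ) (T := T) (c := c) (m := m) (v := v) (τ := τ) hT0
        (f := fun t => cf X n * sH X H n * Real.cos (t * Real.log n)) (by fun_prop)
        (C := |cf X n * sH X H n|) (fun t => by
          rw [abs_mul]
          exact mul_le_of_le_one_right (abs_nonneg _) (Real.abs_cos_le_one _))
      exact h
  rw [hint, Finset.mul_sum]
  -- pointwise
  have hpt : ∀ n ∈ Finset.Icc 1 N, cf X n * sH X H n * (if n ∈ PR δ T c m then v * WP δ T c m v n / √n else 0) -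
      2 * (c / m) * (|v| / T) ≤ v * (cf X n * sH X H n * E n) := by
    intro n hn
    obtain ⟨hcf0, -, hcf2, -⟩ := cf_bd hX0 hn
    by_cases hΛ : ArithmeticFunction.vonMangoldt n = 0
    · have hz : cf X n = 0 := by
        unfold cf
        rw [hΛ]
        simp
      rw [hz]
      simp only [zero_mul, mul_zero, zero_sub]
      have : 0 ≤ 2 * (c / m) * (|v| / T) := by positivity
      linarith
    · have hpp : IsPrimePow n := ArithmeticFunction.vonMangoldt_ne_zero_iff.1 hΛ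
      have hle : (n : ℝ) ≤ Real.exp X := (Nat.le_floor_iff (Real.exp_pos X).le).1 (Finset.mem_Icc.1 hn).2
      have h10 := h9 n hpp hle
      simp only [add_zero, zero_mul, Real.cos_zero, mul_one] at h10
      set I := (if n ∈ PR δ T c m then WP δ T c m v n / √n else 0) with hI
      have hI2 : (if n ∈ PR δ T c m then v * WP δ T c m v n / √n else 0) = v * I := by
        rw [hI]
        split_ifs
        · ring
        · simp
      rw [hI2]
      have h11 : |cf X n * sH X H n * (v * (E n - I))| ≤ 2 * (c / m) * (|v| / T) := by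
        rw [abs_mul, abs_mul, abs_mul, abs_of_nonneg hcf0]
        calc cf X n * |sH X H n| * (|v| * |E n - I|) ≤ 2 * (c / m) * (|v| * (1 / T)) := by
              apply mul_le_mul
              · exact mul_le_mul hcf2 ((sH_abs hX0 hH0 n).trans hXH.le) (abs_nonneg _) (by norm_num)
              · exact mul_le_mul_of_nonneg_left h10 hvp.le
              · positivity
              · positivity
          _ = 2 * (c / m) * (|v| / T) := by ring
      have h12 := neg_abs_le (cf X n * sH X H n * (v * (E n - I)))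
      have h13 : v * (cf X n * sH X H n * E n) = cf X n * sH X H n * (v * I) + cf X n * sH X H n * (v * (E n - I)) := by
        ring
      rw [h13]
      linarith
  have hsum := Finset.sum_le_sum hpt
  rw [Finset.sum_sub_distrib, Finset.sum_const, Nat.card_Icc, Nat.add_sub_cancel, nsmul_eq_mul] at hsum
  refine le_trans ?_ hsum
  have hV0 : 0 ≤ VV δ T c m v := by linarith
  have hsm : 1 ≤ √m := Real.one_le_sqrt.2 (by linarith)
  -- main term
  have hmain : (1 - 7 / 2 * δ) * (v ^ 2 * ll c m / Real.pi) * VV δ T c m v ≤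
      ∑ n ∈ Finset.Icc 1 N, cf X n * sH X H n * (if n ∈ PR δ T c m then v * WP δ T c m v n / √n else 0) := by
    have hlogX : ∀ p ∈ PR δ T c m, Real.log p ≤ δ / 64 * X := by
      intro p hp
      obtain ⟨-, -, -, -, hw, -⟩ := hP p hp
      rw [hlogT] at hw
      have h1 : m * (64 * Real.log p) ≤ m * (δ * X) := by linarith
      have h2 := le_of_mul_le_mul_left h1 hm0
      linarith
    have hsub : PR δ T c m ⊆ Finset.Icc 1 N := by
      intro p hp
      have hpp := (hP p hp).1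
      have hp0 : (0:ℝ) < p := by exact_mod_cast hpp.pos
      rw [Finset.mem_Icc]
      refine ⟨hpp.one_le, ?_⟩
      rw [hN, Nat.le_floor_iff (Real.exp_pos X).le, ← Real.log_le_iff_le_exp hp0]
      have h1 := hlogX p hp
      have h2 : δ / 64 * X ≤ 1 * X := mul_le_mul_of_nonneg_right (by linarith) hX0.le
      linarith
    have h14 : ∑ n ∈ Finset.Icc 1 N, cf X n * sH X H n * (if n ∈ PR δ T c m then v * WP δ T c m v n / √n else 0) =
        ∑ p ∈ PR δ T c m, cf X p * sH X H p * (v * WP δ T c m v p / √p) := by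
      symm
      rw [← Finset.sum_subset hsub]
      · refine Finset.sum_congr rfl fun p hp => ?_
        rw [if_pos hp]
      · intro n _ hn
        rw [if_neg hn, mul_zero]
    rw [h14]
    have h15 : ∀ p ∈ PR δ T c m, 2 / Real.pi * ((1 - δ / 64) ^ 2 * (1 - δ)) * |v| ^ 2 * VV δ T c m v * (sw T c p ^ 2 / p) ≤
        cf X p * sH X H p * (v * WP δ T c m v p / √p) := by
      intro p hp
      obtain ⟨hpp, -, -, -, -, hw0⟩ := hP p hp
      have hp0 : (0:ℝ) < p := by exact_mod_cast hpp.pos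
      have hL0 : 0 < Real.log p := Real.log_pos (by exact_mod_cast hpp.one_lt)
      have hs0 : 0 < √(p:ℝ) := Real.sqrt_pos.2 hp0
      have hss : √(p:ℝ) * √(p:ℝ) = p := Real.mul_self_sqrt hp0.le
      have hHL : H * Real.log p = Real.pi * ww T c p := by
        rw [hHdef]
        unfold HH ww
        ring
      have e1 : cf X p * sH X H p * (v * WP δ T c m v p / √p) =
          2 / Real.pi * (1 - Real.log p / X) ^ 2 * (1 / p) * (rp T c v p * WP δ T c m v p) := by
        rw [sH_eq hL0, hHL]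
        unfold cf rp sw
        rw [ArithmeticFunction.vonMangoldt_apply_prime hpp]
        rw [show (1 / (p:ℝ)) = 1 / (√(p:ℝ) * √(p:ℝ)) by rw [hss]]
        field_simp
      rw [e1]
      have h16 := (h4 p hp).1
      have h17 : (1 - δ / 64) ^ 2 ≤ (1 - Real.log p / X) ^ 2 := by
        have : Real.log p / X ≤ δ / 64 := by
          rw [div_le_iff₀ hX0]
          exact hlogX p hp
        apply pow_le_pow_left₀ (by linarith)
        linarith
      have h18 : 0 ≤ (1 - δ) * rp T c v p ^ 2 * VV δ T c m v := by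
        have : 0 ≤ 1 - δ := by linarith
        positivity
      have hrp : rp T c v p ^ 2 = |v| ^ 2 * sw T c p ^ 2 := by
        unfold rp
        rw [mul_pow, sq_abs]
      calc 2 / Real.pi * ((1 - δ / 64) ^ 2 * (1 - δ)) * |v| ^ 2 * VV δ T c m v * (sw T c p ^ 2 / p)
          = 2 / Real.pi * (1 - δ / 64) ^ 2 * (1 / p) * ((1 - δ) * rp T c v p ^ 2 * VV δ T c m v) := by
            rw [hrp]
            ring
        _ ≤ 2 / Real.pi * (1 - Real.log p / X) ^ 2 * (1 / p) * (rp T c v p * WP δ T c m v p) := by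
            apply mul_le_mul _ h16 h18 (by positivity)
            apply mul_le_mul_of_nonneg_right _ (by positivity)
            exact mul_le_mul_of_nonneg_left h17 (by positivity)
    have hnum := num1 hδ hδ1
    have h1d : 0 ≤ 1 - δ := by linarith
    have hq : 0 ≤ v ^ 2 * ll c m / Real.pi * VV δ T c m v := by positivity
    calc (1 - 7 / 2 * δ) * (v ^ 2 * ll c m / Real.pi) * VV δ T c m v =
          (1 - 7 / 2 * δ) * (v ^ 2 * ll c m / Real.pi * VV δ T c m v) := by ring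
      _ ≤ ((1 - δ / 64) ^ 2 * (1 - δ) * (1 - 2 * δ)) * (v ^ 2 * ll c m / Real.pi * VV δ T c m v) :=
          mul_le_mul_of_nonneg_right hnum hq
      _ = 2 / Real.pi * ((1 - δ / 64) ^ 2 * (1 - δ)) * |v| ^ 2 * VV δ T c m v * ((1 / 2 - δ) * ll c m) := by
          rw [sq_abs]
          ring
      _ ≤ 2 / Real.pi * ((1 - δ / 64) ^ 2 * (1 - δ)) * |v| ^ 2 * VV δ T c m v * ∑ p ∈ PR δ T c m, sw T c p ^ 2 / p := by
          apply mul_le_mul_of_nonneg_left hP1
          positivity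
      _ = ∑ p ∈ PR δ T c m, 2 / Real.pi * ((1 - δ / 64) ^ 2 * (1 - δ)) * |v| ^ 2 * VV δ T c m v * (sw T c p ^ 2 / p) := by
          rw [Finset.mul_sum]
      _ ≤ _ := Finset.sum_le_sum h15
  have herr : (N : ℝ) * (2 * (c / m) * (|v| / T)) ≤ δ / 2 * (v ^ 2 * ll c m / Real.pi) * VV δ T c m v := by
    have h1 : (N : ℝ) * (2 * (c / m)) ≤ δ / 8 * T := by
      have hcm : c / m ≤ c := div_le_self hc0.le (by linarith)
      have hl : Real.log T ≤ T ^ (1 / 4 : ℝ) / (1 / 4) := Real.log_le_rpow_div hT0.le (by norm_num)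
      have hc2 : 16 * (c / m) ≤ T ^ (1 / 4 : ℝ) := by
        have : 0 < T ^ (1 / 4 : ℝ) := Real.rpow_pos_of_pos hT0 _
        linarith
      have hb : 1 / δ ≤ T ^ (1 / 4 : ℝ) := by
        have h2 : ((1 / δ) ^ 4) ^ (1 / 4 : ℝ) ≤ T ^ (1 / 4 : ℝ) := Real.rpow_le_rpow (by positivity) hTb (by norm_num)
        rw [← Real.rpow_natCast, ← Real.rpow_mul (by positivity)] at h2
        norm_num at h2
        rwa [one_div]
      have hb' : 1 ≤ δ * T ^ (1 / 4 : ℝ) := by
        rw [div_le_iff₀ hδ] at hb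
        linarith
      have h8 : (N : ℝ) * (16 * (c / m)) ≤ δ * T := by
        calc (N : ℝ) * (16 * (c / m)) ≤ T ^ (1 / 64 : ℝ) * T ^ (1 / 4 : ℝ) :=
              mul_le_mul hNle hc2 (by positivity) (by positivity)
          _ ≤ T ^ (1 / 4 : ℝ) * T ^ (1 / 4 : ℝ) := by
              apply mul_le_mul_of_nonneg_right _ (by positivity)
              exact Real.rpow_le_rpow_of_exponent_le hT1 (by norm_num)
          _ ≤ (T ^ (1 / 4 : ℝ) * T ^ (1 / 4 : ℝ)) * (δ * T ^ (1 / 4 : ℝ)) :=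
              le_mul_of_one_le_right (by positivity) hb'
          _ = δ * T ^ (1 / 4 + 1 / 4 + 1 / 4 : ℝ) := by
              rw [Real.rpow_add hT0, Real.rpow_add hT0]
              ring
          _ ≤ δ * T ^ (1 : ℝ) := by
              apply mul_le_mul_of_nonneg_left _ hδ.le
              exact Real.rpow_le_rpow_of_exponent_le hT1 (by norm_num)
          _ = δ * T := by rw [Real.rpow_one]
      linarith
    have h2 : |v| / 4 ≤ v ^ 2 * ll c m / Real.pi := by
      rw [le_div_iff₀ hpi]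
      have h3 : |v| * 1 ≤ |v| * (|v| * ll c m) := mul_le_mul_of_nonneg_left hvl hvp.le
      have h4 : |v| * (|v| * ll c m) = v ^ 2 * ll c m := by
        rw [← sq_abs v]
        ring
      have h5 : |v| / 4 * Real.pi ≤ |v| / 4 * 4 := mul_le_mul_of_nonneg_left Real.pi_le_four (by positivity)
      linarith
    calc (N : ℝ) * (2 * (c / m) * (|v| / T)) = ((N : ℝ) * (2 * (c / m))) * (|v| / T) := by ring
      _ ≤ (δ / 8 * T) * (|v| / T) := mul_le_mul_of_nonneg_right h1 (by positivity)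
      _ = δ / 2 * (|v| / 4) * 1 := by
          field_simp
          ring
      _ ≤ δ / 2 * (v ^ 2 * ll c m / Real.pi) * VV δ T c m v := by
          apply mul_le_mul _ hV (by norm_num) (by positivity)
          exact mul_le_mul_of_nonneg_left h2 (by positivity)
  have h25 : (1 - 4 * δ) * (v ^ 2 * ll c m / Real.pi) * VV δ T c m v =
      (1 - 7 / 2 * δ) * (v ^ 2 * ll c m / Real.pi) * VV δ T c m v - δ / 2 * (v ^ 2 * ll c m / Real.pi) * VV δ T c m v := by ring
  rw [h25]
  linarith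

end Pool.Agent.Helper65.UX
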