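import Pool.Agent.Helper65.UX.EWS
import Pool.Agent.Helper65.UX.Dyad

/-!
# UX: second moment of the prime sum averaged over the window
-/

set_option autoImplicit false
open MeasureTheory Set Filter Topology
open Pool.Agent.Helper57.Zeta Pool.Agent.Helper57.LH Pool.Agent.Helper57.ED Pool.Agent.Helper54.LG
open Pool.Agent.Helper69.UG (pt XX NR NM WW)
open Pool.Agent.Helper69.UV (ww HH)
open Pool.Agent.Helper69.UW (Adm PR KR sw rp rr RR VV wt WP WS ll vv vv_le ll_pos)
open Pool.Agent.Helper65.UG (ee ee_norm ee_cont ee_mul int_PW_bdd cf cf_bd ee_re mv)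
open Pool.Agent.Helper65.UV (sH sH_abs sH_eq)
open Pool.Agent.Helper65.UW (RR_eq RR_cont RR_bdd int_wt wt_nonneg adm_facts WS_eq)

namespace Pool.Agent.Helper65.UX

/-- the window Dirichlet polynomial -/
noncomputable def DW (X H t : ℝ) : ℂ := ∑ n ∈ Finset.Icc 1 ⌊Real.exp X⌋₊, ((cf X n * sH X H n : ℝ) : ℂ) * ee n t

lemma DW_cont (X H : ℝ) : Continuous (DW X H) := by
  unfold DW
  exact continuous_finsetSum _ fun n _ => continuous_const.mul (ee_cont n)

lemma DW_bdd (X H : ℝ) : ∃ B : ℝ, ∀ t, ‖DW X H t‖ ≤ B := by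
  refine ⟨∑ n ∈ Finset.Icc 1 ⌊Real.exp X⌋₊, ‖((cf X n * sH X H n : ℝ) : ℂ)‖, fun t => ?_⟩
  unfold DW
  refine (norm_sum_le _ _).trans (Finset.sum_le_sum fun n _ => ?_)
  rw [norm_mul, ee_norm, mul_one]

lemma WS_re (T c m t : ℝ) : WS T c m t = (DW (XX T m) (HH T c) t).re := by
  rw [WS_eq, DW, Complex.re_sum]
  refine Finset.sum_congr rfl fun n _ => ?_
  rw [Complex.re_ofReal_mul, ee_re]

lemma WS_sq_le (T c m t : ℝ) : WS T c m t ^ 2 ≤ ‖DW (XX T m) (HH T c) t‖ ^ 2 := by
  rw [WS_re, ← sq_abs (DW (XX T m) (HH T c) t).re]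
  exact pow_le_pow_left₀ (abs_nonneg _) (Complex.abs_re_le_norm _) 2

lemma WS_cont (T c m : ℝ) : Continuous (WS T c m) := by
  have : WS T c m = fun t => (DW (XX T m) (HH T c) t).re := funext fun t => WS_re T c m t
  rw [this]
  exact Complex.continuous_re.comp (DW_cont _ _)

/-- the coefficients are at most `Gb` -/
lemma coef_le {X H : ℝ} (hX : 0 < X) (hH : 0 < H) {n : ℕ} (hn : n ∈ Finset.Icc 1 ⌊Real.exp X⌋₊) :
    |cf X n * sH X H n| ≤ Gb H n := by
  obtain ⟨h0, h1, -, -⟩ := cf_bd hX hn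
  have hpi := Real.pi_pos
  have hpi3 := Real.pi_gt_three
  have hL := ArithmeticFunction.vonMangoldt_nonneg (n := n)
  rcases eq_or_lt_of_le (Finset.mem_Icc.1 hn).1 with hn1 | hn1
  · rw [← hn1] at h0 h1 ⊢
    have h2 : cf X 1 = 0 := by
      unfold cf
      simp
    rw [h2]
    simp only [zero_mul, abs_zero]
    exact Gb_nonneg hH.le _
  have hlog : 0 < Real.log n := Real.log_pos (by exact_mod_cast hn1)
  have hs : |sH X H n| ≤ X / Real.pi * min H (1 / Real.log n) := by
    rw [mul_min_of_nonneg _ _ (by positivity)]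
    refine le_min ?_ ?_
    · refine (sH_abs hX hH n).trans (le_of_eq ?_)
      ring
    · rw [sH_eq hlog, abs_mul, abs_of_pos (show 0 < X / Real.pi by positivity), abs_div, abs_of_pos hlog]
      gcongr
      exact Real.abs_sin_le_one _
  have hm0 : 0 ≤ min H (1 / Real.log n) := le_min hH.le (by positivity)
  rw [abs_mul, abs_of_nonneg h0]
  calc cf X n * |sH X H n| ≤ (2 / X * ArithmeticFunction.vonMangoldt n / Real.sqrt n) * (X / Real.pi * min H (1 / Real.log n)) := by
        gcongr
    _ = 2 / Real.pi * (ArithmeticFunction.vonMangoldt n / √(n : ℝ) * min H (1 / Real.log n)) := by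
        field_simp
    _ ≤ 1 * (ArithmeticFunction.vonMangoldt n / √(n : ℝ) * min H (1 / Real.log n)) := by
        apply mul_le_mul_of_nonneg_right _ (by positivity)
        rw [div_le_one hpi]
        linarith
    _ = Gb H n := by rw [one_mul]; rfl

open Classical in
/-- the multiplicative majorant of the coefficients of the resonator -/
noncomputable def rhoF (δ T c m v : ℝ) (q : ℕ) : ℝ := if q = 1 then 1 else if q ∈ PR δ T c m then |rp T c v q| else 0

lemma rhoF_nonneg (δ T c m v : ℝ) (q : ℕ) : 0 ≤ rhoF δ T c m v q := by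
  unfold rhoF
  split_ifs
  · norm_num
  · exact abs_nonneg _
  · exact le_rfl

lemma rr_mul_le (δ T c m v : ℝ) (q h : ℕ) (hq : q = 1 ∨ IsPrimePow q) (hh : 1 ≤ h) :
    |rr δ T c m v (q * h)| ≤ rhoF δ T c m v q * |rr δ T c m v h| := by
  classical
  rcases hq with rfl | hq
  · rw [one_mul]
    unfold rhoF
    rw [if_pos rfl, one_mul]
  · by_cases hr : rr δ T c m v (q * h) = 0
    · rw [hr, abs_zero]
      exact mul_nonneg (rhoF_nonneg _ _ _ _ _ _) (abs_nonneg _)
    · unfold rr at hr
      have hcond := fun hc => hr (if_neg hc)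
      rw [imp_false, not_not] at hcond
      obtain ⟨hsq, hsub, hcard⟩ := hcond
      have hqs : Squarefree q := hsq.squarefree_of_dvd (Dvd.intro _ rfl)
      have hhs : Squarefree h := hsq.squarefree_of_dvd (Dvd.intro_left _ rfl)
      have hqp : q.Prime := by
        obtain ⟨p, a, hp, ha, rfl⟩ := hq
        rw [← Nat.prime_iff] at hp
        have ha1 : a = 1 := by
          by_contra hcon
          have h2 : 2 ≤ a := by omega
          have h3 : p * p ∣ p ^ a := by
            rw [← pow_two]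
            exact pow_dvd_pow p h2
          have h4 := hqs p h3
          exact hp.one_lt.ne' (Nat.isUnit_iff.1 h4)
        rw [ha1, pow_one]
        exact hp
      have hcop : Nat.Coprime q h := Nat.coprime_of_squarefree_mul hsq
      have hqh : q ∉ h.primeFactors := by
        intro hmem
        have h2 := Nat.dvd_of_mem_primeFactors hmem
        have h3 := hcop.eq_one_of_dvd h2
        exact hqp.one_lt.ne' h3
      have hpf : (q * h).primeFactors = insert q h.primeFactors := by
        rw [hcop.primeFactors_mul, hqp.primeFactors]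
        rfl
      have hmem : q ∈ PR δ T c m := hsub (by rw [hpf]; exact Finset.mem_insert_self _ _)
      have hsub2 : h.primeFactors ⊆ PR δ T c m := fun p hp => hsub (by rw [hpf]; exact Finset.mem_insert_of_mem hp)
      have hcard2 : h.primeFactors.card ≤ KR δ m := by
        rw [hpf, Finset.card_insert_of_notMem hqh] at hcard
        omega
      have e1 : rr δ T c m v (q * h) = rp T c v q * rr δ T c m v h := by
        unfold rr
        rw [if_pos ⟨hsq, hsub, hcard⟩, if_pos ⟨hhs, hsub2, hcard2⟩, hpf, Finset.prod_insert hqh]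
      rw [e1, abs_mul]
      unfold rhoF
      rw [if_neg hqp.one_lt.ne', if_pos hmem]

theorem vWS_of {δ : ℝ} (hδ : 0 < δ) (hδ1 : δ ≤ 1 / 32) (hR2 : StR2 δ) (hR3 : StR3 δ) : ∃ C c0 T0 : ℝ, 0 < C ∧
    ∀ T c m v : ℝ, T0 ≤ T → Adm c0 T c m →
    |v| ≤ vv δ c m → ∀ τ : ℝ, Integrable (fun t => wt δ T c m v τ t * WS T c m t ^ 2) ∧
    ∫ t, wt δ T c m v τ t * WS T c m t ^ 2 ≤ C * ((v * ll c m) ^ 2 + Real.log c) * VV δ T c m v := by
  obtain ⟨c1, T1, hR2⟩ := hR2
  obtain ⟨c3, T3, hR3⟩ := hR3
  have hCM := Pool.Agent.Helper57.LS.CMe_pos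
  refine ⟨21 * (2 + Pool.Agent.Helper57.LS.CMe) + 8, max (max c1 c3) 64, max (max T1 T3) (Real.exp (Real.exp 1)), by linarith, ?_⟩
  intro T c m v hT hadm hv τ
  have hadm1 : Adm c1 T c m := hadm.mono (by simp)
  have hadm3 : Adm c3 T c m := hadm.mono (by simp)
  have hadm64 : Adm 64 T c m := hadm.mono (by simp)
  have hmc : m ≤ c := hadm64.m_le_c (by norm_num)
  have hTe : Real.exp (Real.exp 1) ≤ T := (le_max_right _ _).trans hT
  have hc3 : 3 ≤ c := hadm64.1
  obtain ⟨hT1, hlog1, hm64, -, hX16, hXlog, hXe, hcX⟩ := adm_facts hTe le_rfl hadm64 (le_refl m) (by linarith)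
  have hT0 : 0 < T := by linarith
  have hc0 : 0 < c := by linarith
  have hm0 : 0 < m := by linarith
  have hr := fun n => (hR2 T c m v ((le_max_left _ _).trans ((le_max_left _ _).trans hT)) hadm1 hv n).1
  have hV := (hR2 T c m v ((le_max_left _ _).trans ((le_max_left _ _).trans hT)) hadm1 hv 0).2
  obtain ⟨hP, -, hP2⟩ := hR3 T c m ((le_max_right _ _).trans ((le_max_left _ _).trans hT)) hadm3
  have hll : 0 < ll c m := ll_pos hadm64 (by norm_num)
  have hpi := Real.pi_pos
  have hlc1 : 1 ≤ Real.log c := hadm64.one_le_log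
  have hlc : 64 * c ≤ Real.log T := by
    have h1 : Real.exp 1 ≤ Real.log T := (Real.le_log_iff_exp_le hT0).2 hTe
    have h2 : 1 ≤ Real.log (Real.log T) := (Real.le_log_iff_exp_le (by linarith)).2 h1
    have h3 := hadm64.2.2.2.2
    have h4 : c * 1 ≤ c * Real.log (Real.log T) := mul_le_mul_of_nonneg_left h2 hc0.le
    linarith
  -- `|v| ≤ log T`
  have hvT : |v| ≤ Real.log T := by
    have h1 := hv.trans (vv_le hδ hδ1 hadm64 (by norm_num))
    have h2 : 1 ≤ ll c m := by
      have h3 := hadm64.log_le_ll (by norm_num)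
      have h4 : (1 : ℝ) ≤ Real.log 64 := by
        rw [Real.le_log_iff_exp_le (by norm_num)]
        linarith [Real.exp_one_lt_d9]
      linarith
    have h3 : 6 * √m / ll c m ≤ 6 * √m := div_le_self (by positivity) h2
    have h4 : √m ≤ m := by
      rw [Real.sqrt_le_left hm0.le]
      nlinarith
    linarith
  have hvp : ∀ p ∈ PR δ T c m, |v| ≤ √(p : ℝ) := by
    intro p hp
    obtain ⟨-, h4, -⟩ := hP p hp
    refine hvT.trans ?_
    apply Real.le_sqrt_of_sq_le
    have h5 : Real.log T ^ 2 ≤ Real.log T ^ 4 := pow_le_pow_right₀ hlog1 (by norm_num)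
    linarith
  set X := XX T m with hXdef
  set H := HH T c with hHdef
  have hX0 : 0 < X := by linarith
  have hH0 : 0 < H := by
    rw [hHdef]
    unfold HH
    positivity
  have hH1 : H ≤ 1 := by
    rw [hHdef]
    unfold HH
    rw [div_le_one (by linarith)]
    have := Real.pi_le_four
    nlinarith
  have hlogT : Real.log T = m * X := hcX.symm
  have hXH : X * H ≤ 4 * c := by
    have h1 : X * H = Real.pi * c / m := by
      rw [hHdef]
      unfold HH
      rw [hlogT]
      field_simp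
    rw [h1, div_le_iff₀ hm0]
    have h2 := Real.pi_le_four
    have h3 : Real.pi * c ≤ 4 * c := mul_le_mul_of_nonneg_right h2 hc0.le
    nlinarith
  set M := NR T with hM
  set N := ⌊Real.exp X⌋₊ with hN
  have hMle : (M : ℝ) ≤ T ^ (1 / 8 : ℝ) := Nat.floor_le (by positivity)
  have hNle : (N : ℝ) ≤ T ^ (1 / 64 : ℝ) := (Nat.floor_le (Real.exp_pos X).le).trans hXe
  have hM1 : 1 ≤ M := (Nat.one_le_floor_iff _).2 (Real.one_le_rpow hT1 (by norm_num))
  have hN1 : 1 ≤ N := (Nat.one_le_floor_iff _).2 (Real.one_le_exp hX0.le)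
  set s := Finset.Icc 1 M ×ˢ Finset.Icc 1 N with hs
  set b : ℕ × ℕ → ℂ := fun i => ((rr δ T c m v i.1 / Real.sqrt i.1 : ℝ) : ℂ) * ((cf X i.2 * sH X H i.2 : ℝ) : ℂ) with hb
  have hW : 0 < WW T := Real.rpow_pos_of_pos hT0 _
  have hWb : ∃ C : ℝ, ∀ t, |WS T c m t ^ 2| ≤ C := by
    obtain ⟨B, hB⟩ := DW_bdd X H
    refine ⟨B ^ 2, fun t => ?_⟩
    rw [abs_of_nonneg (sq_nonneg _)]
    exact (WS_sq_le T c m t).trans (pow_le_pow_left₀ (norm_nonneg _) (hB t) 2)
  have hint : Integrable (fun t => wt δ T c m v τ t * WS T c m t ^ 2) := by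
    obtain ⟨C, hC⟩ := hWb
    exact int_wt hT0 ((WS_cont T c m).pow 2) hC
  refine ⟨hint, ?_⟩
  -- the product
  have hprod : ∀ t, RR δ T c m v t * DW X H t = ∑ i ∈ s, b i * ee (i.1 * i.2) t := by
    intro t
    rw [RR_eq, DW, Finset.sum_mul_sum, ← Finset.sum_product']
    refine Finset.sum_congr rfl fun i hi => ?_
    rw [Finset.mem_product] at hi
    have h1 := (Finset.mem_Icc.1 hi.1).1
    have h2 := (Finset.mem_Icc.1 hi.2).1
    rw [ee_mul (by omega) (by omega), hb]
    ring
  have hle : ∫ t, wt δ T c m v τ t * WS T c m t ^ 2 ≤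
      ∫ t, PW (WW T) (t - τ) * ‖∑ i ∈ s, b i * ee (i.1 * i.2) t‖ ^ 2 := by
    have hpt : ∀ t, wt δ T c m v τ t * WS T c m t ^ 2 ≤ PW (WW T) (t - τ) * ‖∑ i ∈ s, b i * ee (i.1 * i.2) t‖ ^ 2 := by
      intro t
      rw [← hprod, norm_mul, mul_pow, ← mul_assoc]
      exact mul_le_mul_of_nonneg_left (WS_sq_le T c m t) (wt_nonneg hT0 t)
    apply integral_mono_of_nonneg
    · exact Eventually.of_forall fun t => mul_nonneg (wt_nonneg hT0 t) (sq_nonneg _)
    · obtain ⟨B, hB⟩ := RR_bdd δ T c m v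
      obtain ⟨B', hB'⟩ := DW_bdd X H
      have h := int_PW_bdd hW τ (f := fun t => ‖RR δ T c m v t * DW X H t‖ ^ 2)
        ((((RR_cont δ T c m v).mul (DW_cont X H)).norm.pow 2))
        (C := (B * B') ^ 2) (fun t => by
          rw [abs_of_nonneg (by positivity), norm_mul]
          have h1 : ‖RR δ T c m v t‖ * ‖DW X H t‖ ≤ B * B' :=
            mul_le_mul (hB t) (hB' _) (norm_nonneg _) ((norm_nonneg _).trans (hB t))
          exact pow_le_pow_left₀ (by positivity) h1 2)
      simpa only [hprod] using h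
    · exact Eventually.of_forall hpt
  refine hle.trans ?_
  have hkey : ∀ i ∈ s, 1 ≤ i.1 * i.2 ∧ i.1 * i.2 ≤ M * N := by
    intro i hi
    rw [hs, Finset.mem_product, Finset.mem_Icc, Finset.mem_Icc] at hi
    exact ⟨Nat.mul_le_mul hi.1.1 hi.2.1, Nat.mul_le_mul hi.1.2 hi.2.2⟩
  have hmv := mv hW τ s (fun i => i.1 * i.2) b hkey
  refine hmv.trans ?_
  -- norms of the coefficients
  have hbn : ∀ i ∈ s, ‖b i‖ ≤ |rr δ T c m v i.1| / Real.sqrt i.1 * Gb H i.2 := by
    intro i hi
    rw [hs, Finset.mem_product] at hi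
    rw [hb]
    simp only
    rw [norm_mul, Complex.norm_real, Complex.norm_real, Real.norm_eq_abs,
      Real.norm_eq_abs, abs_div, abs_of_nonneg (Real.sqrt_nonneg _)]
    exact mul_le_mul_of_nonneg_left (coef_le hX0 hH0 hi.2) (by positivity)
  have hdiag : (∑ i ∈ s, ∑ j ∈ s, if i.1 * i.2 = j.1 * j.2 then ‖b i‖ * ‖b j‖ else 0) ≤
      VV δ T c m v * (21 * (2 + Pool.Agent.Helper57.LS.CMe) * Real.log c + (v * ll c m) ^ 2) := by
    have h1 : (∑ i ∈ s, ∑ j ∈ s, if i.1 * i.2 = j.1 * j.2 then ‖b i‖ * ‖b j‖ else 0) ≤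
        ∑ i ∈ s, ∑ j ∈ s, if i.1 * i.2 = j.1 * j.2 then
          (|rr δ T c m v i.1| / Real.sqrt i.1 * Gb H i.2) * (|rr δ T c m v j.1| / Real.sqrt j.1 * Gb H j.2) else 0 := by
      refine Finset.sum_le_sum fun i hi => Finset.sum_le_sum fun j hj => ?_
      split_ifs
      · exact mul_le_mul (hbn i hi) (hbn j hj) (norm_nonneg _) ((norm_nonneg _).trans (hbn i hi))
      · exact le_rfl
    refine h1.trans ?_
    have h2 := diagW (M := M) (N := N) (r := rr δ T c m v) (G := Gb H) (ρ := rhoF δ T c m v) (fun n => Gb_nonneg hH0.le n)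
      (fun n hn => Gb_zero hn) (fun n hn => Gb_mono hH0.le hn) (rhoF_nonneg δ T c m v)
      (by unfold rhoF; rw [if_pos rfl]) (by
        intro p j hp hj
        unfold rhoF
        rw [if_neg, if_neg]
        · intro hmem
          have h3 := (hP _ hmem).1
          have h4 : j = 1 := (Nat.Prime.eq_one_of_pow h3)
          omega
        · exact (Nat.one_lt_pow (by omega) hp.one_lt).ne') (by
        intro p hp
        unfold rhoF
        rw [if_neg hp.one_lt.ne']
        split_ifs with h3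
        · refine le_trans ?_ (hvp p h3)
          unfold rp sw
          rw [abs_mul]
          exact mul_le_of_le_one_right (abs_nonneg _) (Real.abs_sin_le_one _)
        · exact Real.sqrt_nonneg _) (rr_mul_le δ T c m v)
    refine h2.trans ?_
    change VV δ T c m v * _ ≤ _
    apply mul_le_mul_of_nonneg_left _ (by linarith)
    have h3 := Gb_sum hH0 hH1 hc3 hXH
    rw [← hN] at h3
    have h4 : ∑ n ∈ Finset.Icc 1 N, Gb H n * (rhoF δ T c m v n / √(n : ℝ)) ≤ |v| * ll c m := by
      have h5 : ∑ n ∈ Finset.Icc 1 N, Gb H n * (rhoF δ T c m v n / √(n : ℝ)) ≤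
          ∑ n ∈ Finset.Icc 1 N, if n ∈ PR δ T c m then |v| * (1 / (n : ℝ)) else 0 := by
        refine Finset.sum_le_sum fun n hn => ?_
        by_cases h6 : n ∈ PR δ T c m
        · rw [if_pos h6]
          have hp := (hP n h6).1
          have hn0 : (0 : ℝ) < n := by exact_mod_cast hp.pos
          have hlog : 0 < Real.log n := Real.log_pos (by exact_mod_cast hp.one_lt)
          have hm0' : 0 ≤ min H (1 / Real.log n) := le_min hH0.le (by positivity)
          have h7 : rhoF δ T c m v n ≤ |v| := by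
            unfold rhoF
            rw [if_neg hp.one_lt.ne', if_pos h6]
            unfold rp sw
            rw [abs_mul]
            exact mul_le_of_le_one_right (abs_nonneg _) (Real.abs_sin_le_one _)
          have h8 : Gb H n ≤ 1 / √(n : ℝ) := by
            unfold Gb
            rw [ArithmeticFunction.vonMangoldt_apply_prime hp]
            calc Real.log n / √(n : ℝ) * min H (1 / Real.log n) ≤ Real.log n / √(n : ℝ) * (1 / Real.log n) := by
                  apply mul_le_mul_of_nonneg_left (min_le_right _ _) (by positivity)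
              _ = 1 / √(n : ℝ) := by field_simp
          calc Gb H n * (rhoF δ T c m v n / √(n : ℝ)) ≤ 1 / √(n : ℝ) * (|v| / √(n : ℝ)) := by
                apply mul_le_mul h8 _ (div_nonneg (rhoF_nonneg _ _ _ _ _ _) (Real.sqrt_nonneg _)) (by positivity)
                exact div_le_div_of_nonneg_right h7 (Real.sqrt_nonneg _)
            _ = |v| * (1 / (√(n : ℝ) * √(n : ℝ))) := by
                field_simp
            _ = |v| * (1 / (n : ℝ)) := by rw [Real.mul_self_sqrt hn0.le]
        · rw [if_neg h6]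
          by_cases h7 : n = 1
          · rw [h7]
            unfold Gb
            simp
          · unfold rhoF
            rw [if_neg h7, if_neg h6]
            simp
      refine h5.trans ?_
      rw [← Finset.sum_filter, ← Finset.mul_sum]
      apply mul_le_mul_of_nonneg_left _ (abs_nonneg _)
      refine le_trans (Finset.sum_le_sum_of_subset_of_nonneg ?_ fun n _ _ => by positivity) hP2
      intro n hn
      exact (Finset.mem_filter.1 hn).2
    have h5 : 0 ≤ ∑ n ∈ Finset.Icc 1 N, Gb H n * (rhoF δ T c m v n / √(n : ℝ)) :=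
      Finset.sum_nonneg fun n _ => mul_nonneg (Gb_nonneg hH0.le n) (div_nonneg (rhoF_nonneg _ _ _ _ _ _) (Real.sqrt_nonneg _))
    have h6 : (∑ n ∈ Finset.Icc 1 N, Gb H n * (rhoF δ T c m v n / √(n : ℝ))) ^ 2 ≤ (v * ll c m) ^ 2 := by
      have h7 : (v * ll c m) ^ 2 = (|v| * ll c m) ^ 2 := by rw [mul_pow, mul_pow, sq_abs]
      rw [h7]
      exact pow_le_pow_left₀ h5 h4 2
    linarith
  have herr : (∑ i ∈ s, ‖b i‖) ^ 2 * Real.exp (-(WW T / ((M * N : ℕ) : ℝ))) ≤ 8 := by
    have h1 : ∑ i ∈ s, ‖b i‖ ≤ 2 * T ^ (1 / 2 : ℝ) := by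
      have h2 : ∀ i ∈ s, ‖b i‖ ≤ 2 * T ^ (1 / 192 : ℝ) := by
        intro i hi
        refine (hbn i hi).trans ?_
        rw [hs, Finset.mem_product] at hi
        have h3 : (1:ℝ) ≤ Real.sqrt i.1 := Real.one_le_sqrt.2 (by exact_mod_cast (Finset.mem_Icc.1 hi.1).1)
        have h4 : |rr δ T c m v i.1| / Real.sqrt i.1 ≤ T ^ (1 / 192 : ℝ) :=
          (div_le_self (abs_nonneg _) h3).trans (hr _)
        have h5 : Gb H i.2 ≤ 2 := by
          unfold Gb
          have h6 : (1:ℝ) ≤ Real.sqrt i.2 := Real.one_le_sqrt.2 (by exact_mod_cast (Finset.mem_Icc.1 hi.2).1)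
          have h7 := ArithmeticFunction.vonMangoldt_nonneg (n := i.2)
          have h8 : ArithmeticFunction.vonMangoldt i.2 ≤ Real.log i.2 := ArithmeticFunction.vonMangoldt_le_log
          have h9 : 0 ≤ Real.log i.2 := Real.log_natCast_nonneg _
          have h10 : 0 ≤ min H (1 / Real.log i.2) := le_min hH0.le (by positivity)
          rcases eq_or_lt_of_le h9 with h11 | h11
          · rw [← h11] at h8
            have h12 : ArithmeticFunction.vonMangoldt i.2 = 0 := le_antisymm h8 h7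
            rw [h12]
            simp
          · calc ArithmeticFunction.vonMangoldt i.2 / √(i.2 : ℝ) * min H (1 / Real.log i.2) ≤
                  Real.log i.2 / 1 * (1 / Real.log i.2) := by
                    apply mul_le_mul _ (min_le_right _ _) h10 (by positivity)
                    exact div_le_div₀ h9 h8 one_pos h6
              _ = 1 := by field_simp
              _ ≤ 2 := by norm_num
        calc _ ≤ T ^ (1 / 192 : ℝ) * 2 :=
              mul_le_mul h4 h5 (Gb_nonneg hH0.le _) (by positivity)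
          _ = _ := by ring
      calc ∑ i ∈ s, ‖b i‖ ≤ ∑ i ∈ s, 2 * T ^ (1 / 192 : ℝ) := Finset.sum_le_sum h2
        _ = (M * N) * (2 * T ^ (1 / 192 : ℝ)) := by
            rw [Finset.sum_const, hs, Finset.card_product, Nat.card_Icc, Nat.card_Icc, nsmul_eq_mul]
            push_cast
            simp
        _ ≤ (T ^ (1 / 8 : ℝ) * T ^ (1 / 64 : ℝ)) * (2 * T ^ (1 / 192 : ℝ)) := by
            apply mul_le_mul_of_nonneg_right _ (by positivity)
            exact mul_le_mul hMle hNle (by positivity) (by positivity)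
        _ = 2 * T ^ (1 / 8 + 1 / 64 + 1 / 192 : ℝ) := by
            rw [Real.rpow_add hT0, Real.rpow_add hT0]
            ring
        _ ≤ 2 * T ^ (1 / 2 : ℝ) := by
            apply mul_le_mul_of_nonneg_left _ (by norm_num)
            exact Real.rpow_le_rpow_of_exponent_le hT1 (by norm_num)
    have h5 : (∑ i ∈ s, ‖b i‖) ^ 2 ≤ 4 * (T ^ (1 / 2 : ℝ)) ^ 2 := by
      calc (∑ i ∈ s, ‖b i‖) ^ 2 ≤ (2 * T ^ (1 / 2 : ℝ)) ^ 2 :=
            pow_le_pow_left₀ (Finset.sum_nonneg fun _ _ => norm_nonneg _) h1 2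
        _ = 4 * (T ^ (1 / 2 : ℝ)) ^ 2 := by ring
    have h6 : T ^ (1 / 2 : ℝ) ≤ WW T / ((M * N : ℕ) : ℝ) := by
      have hMN : (0:ℝ) < ((M * N : ℕ) : ℝ) := by exact_mod_cast Nat.mul_pos hM1 hN1
      rw [le_div_iff₀ hMN]
      calc T ^ (1 / 2 : ℝ) * ((M * N : ℕ) : ℝ) ≤ T ^ (1 / 2 : ℝ) * (T ^ (1 / 8 : ℝ) * T ^ (1 / 64 : ℝ)) := by
            apply mul_le_mul_of_nonneg_left _ (by positivity)
            push_cast
            exact mul_le_mul hMle hNle (by positivity) (by positivity)
        _ = T ^ (1 / 2 + 1 / 8 + 1 / 64 : ℝ) := by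
            rw [Real.rpow_add hT0, Real.rpow_add hT0]
            ring
        _ ≤ WW T := by
            unfold WW
            exact Real.rpow_le_rpow_of_exponent_le hT1 (by norm_num)
    have h7 : Real.exp (-(WW T / ((M * N : ℕ) : ℝ))) ≤ Real.exp (-(T ^ (1 / 2 : ℝ))) :=
      Real.exp_le_exp.2 (neg_le_neg h6)
    calc _ ≤ (4 * (T ^ (1 / 2 : ℝ)) ^ 2) * Real.exp (-(T ^ (1 / 2 : ℝ))) :=
          mul_le_mul h5 h7 (Real.exp_pos _).le (by positivity)
      _ ≤ 8 := by
          have h8 := Real.quadratic_le_exp_of_nonneg (x := T ^ (1 / 2 : ℝ)) (by positivity)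
          have h9 : 0 ≤ T ^ (1 / 2 : ℝ) := by positivity
          rw [Real.exp_neg, ← div_eq_mul_inv, div_le_iff₀ (Real.exp_pos _)]
          linarith
  calc _ ≤ VV δ T c m v * (21 * (2 + Pool.Agent.Helper57.LS.CMe) * Real.log c + (v * ll c m) ^ 2) + 8 :=
        add_le_add hdiag herr
    _ ≤ (21 * (2 + Pool.Agent.Helper57.LS.CMe) + 8) * ((v * ll c m) ^ 2 + Real.log c) * VV δ T c m v := by
        have h9 : 1 ≤ Real.log c * VV δ T c m v := by
          have : 1 * 1 ≤ Real.log c * VV δ T c m v := mul_le_mul hlc1 hV (by norm_num) (by linarith)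
          linarith
        have h10 : 0 ≤ (v * ll c m) ^ 2 * VV δ T c m v := mul_nonneg (sq_nonneg _) (by linarith)
        have h11 : 0 ≤ (21 * (2 + Pool.Agent.Helper57.LS.CMe) + 7) * ((v * ll c m) ^ 2 * VV δ T c m v) :=
          mul_nonneg (by linarith) h10
        nlinarith

end Pool.Agent.Helper65.UX
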